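import Mathlib

/-!
# Additive divisor problem, lower bound with an explicit proportion: definitions

`dk k n` is the `k`-fold divisor function, `ram e h` is Ramanujan's sum `c_e(h)`, `Pr k e` the probability that the
product of `k` random residues modulo `e` vanishes, `SS r h` the singular series
`∑_{e ≥ 1} c_e(h) Pr(r-1,e)²`.
-/

set_option autoImplicit false

open Finset

namespace Pool.Agent.H329R2.AD

/-- the `k`-fold divisor function (number of ordered factorisations into `k` positive factors) -/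
noncomputable def dk (k n : ℕ) : ℝ := ((((ArithmeticFunction.zeta : ArithmeticFunction ℕ) ^ k) n : ℕ) : ℝ)

/-- Ramanujan's sum `c_e(h) = ∑_{d ∣ e, d ∣ h} μ(e/d) d` -/
noncomputable def ram (e h : ℕ) : ℝ :=
  ∑ d ∈ e.divisors.filter (fun d => d ∣ h), ((ArithmeticFunction.moebius (e / d) : ℤ) : ℝ) * (d : ℝ)

/-- probability that the product of `k` random residues modulo `e` is `0` modulo `e` -/
noncomputable def Pr (k e : ℕ) : ℝ :=
  (((Fintype.piFinset (fun _ : Fin k => range e)).filter (fun v => e ∣ ∏ i, v i)).card : ℝ) / (e : ℝ) ^ k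

/-- the singular series of `∑_{n ≤ x} d_r(n) d_r(n+h)` -/
noncomputable def SS (r h : ℕ) : ℝ := ∑' e : ℕ, ram (e + 1) h * Pr (r - 1) (e + 1) ^ 2

/-- `∑_{m ≤ y, e ∣ m} d_k(m)/m` -/
noncomputable def LL (k : ℕ) (y : ℝ) (e : ℕ) : ℝ :=
  ∑ m ∈ (Icc 1 ⌊y⌋₊).filter (fun m => e ∣ m), dk k m / m

/-- `∑_{m ≤ y₁, M ≤ y₂, (m,M) ∣ h} d_k(m) d_k(M) / [m,M]` -/
noncomputable def BB (k h : ℕ) (y₁ y₂ : ℝ) : ℝ :=
  ∑ m ∈ Icc 1 ⌊y₁⌋₊, ∑ M ∈ Icc 1 ⌊y₂⌋₊,
    if Nat.gcd m M ∣ h then dk k m * dk k M * (Nat.gcd m M : ℝ) / ((m : ℝ) * (M : ℝ)) else 0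

end Pool.Agent.H329R2.AD
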