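import Mathlib
import Pool.Agent.H329R2.AD.Defs

/-! # E1: reduction of the congruence `M c ≡ s (mod m)` to a coprime one -/

set_option autoImplicit false

open Finset

namespace Pool.Agent.H329R2.AD

/-- number of `c ≤ Y` with `m ∣ M c - s` -/
def NC (s : ℤ) (m M Y : ℕ) : ℕ := ((Icc 1 Y).filter (fun c : ℕ => (m : ℤ) ∣ (M : ℤ) * c - s)).card

/-- the expected value of `NC` -/
noncomputable def NM (h m M Y : ℕ) : ℝ := if Nat.gcd m M ∣ h then (Y : ℝ) * (Nat.gcd m M : ℝ) / m else 0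

/-- natural residue of `s / e` modulo `m` -/
def rs (s : ℤ) (e m : ℕ) : ℕ := ((s / e) % m).toNat

lemma rs_cast (s : ℤ) (e m : ℕ) (hm : 1 ≤ m) : ((rs s e m : ℕ) : ℤ) = (s / e) % m := by
  unfold rs
  rw [Int.toNat_of_nonneg]
  exact Int.emod_nonneg _ (by exact_mod_cast (by omega : m ≠ 0))

lemma rs_modEq (s : ℤ) (e m a : ℕ) (hm : 1 ≤ m) :
    a ≡ rs s e m [MOD m] ↔ (m : ℤ) ∣ (a : ℤ) - s / e := by
  rw [← Int.natCast_modEq_iff, rs_cast s e m hm]
  constructor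
  · intro h
    have h2 : (a : ℤ) ≡ s / e [ZMOD m] := h.trans (Int.mod_modEq _ _)
    exact (Int.modEq_iff_dvd.mp h2.symm)
  · intro h
    have h2 : (s / e : ℤ) ≡ a [ZMOD m] := Int.modEq_iff_dvd.mpr h
    exact h2.symm.trans (Int.mod_modEq _ _).symm

lemma rs_coprime (s : ℤ) (e m : ℕ) (hm : 1 ≤ m) (hc : Nat.Coprime ((s / e).natAbs) m) :
    (rs s e m).Coprime m := by
  have h1 : (rs s e m : ℤ) = (s / e) % m := rs_cast s e m hm
  rw [← Nat.isCoprime_iff_coprime, h1]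
  have h2 : IsCoprime (s / e : ℤ) (m : ℤ) := by
    rw [Int.isCoprime_iff_gcd_eq_one]
    simpa [Int.gcd] using hc
  have h3 : (s / e : ℤ) % m = s / e + m * (-((s / e) / m)) := by
    have := Int.emod_add_mul_ediv (s / e : ℤ) m
    linarith
  rw [h3]
  exact h2.add_mul_left_left _

/-- reduction: with `e = gcd(m, |s|)`, `e₁ = gcd(M, e)` -/
lemma NC_red (s : ℤ) (hs : s ≠ 0) (m M Y : ℕ) (hm : 1 ≤ m) (e e₁ : ℕ)
    (he : e = Nat.gcd m s.natAbs) (he₁ : e₁ = Nat.gcd M e) :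
    NC s m M Y = ((Icc 1 (Y / (e / e₁))).filter
      (fun c : ℕ => (M / e₁) * c ≡ rs s e (m / e) [MOD (m / e)])).card := by
  have he0 : 0 < e := by rw [he]; exact Nat.gcd_pos_of_pos_left _ hm
  have hem : e ∣ m := by rw [he]; exact Nat.gcd_dvd_left _ _
  have hes : (e : ℤ) ∣ s := by
    rw [he]; exact Int.natCast_dvd.mpr (Nat.gcd_dvd_right _ _)
  have he1e : e₁ ∣ e := by rw [he₁]; exact Nat.gcd_dvd_right _ _
  have he1M : e₁ ∣ M := by rw [he₁]; exact Nat.gcd_dvd_left _ _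
  have he10 : 0 < e₁ := Nat.pos_of_dvd_of_pos he1e he0
  obtain ⟨m₁, hm₁⟩ := hem
  obtain ⟨s₁, hs₁⟩ := hes
  obtain ⟨e₂, he₂⟩ := he1e
  obtain ⟨M₁, hM₁⟩ := he1M
  have he20 : 0 < e₂ := by
    rcases Nat.eq_zero_or_pos e₂ with h | h
    · rw [h] at he₂; omega
    · exact h
  have hm10 : 1 ≤ m₁ := by
    rcases Nat.eq_zero_or_pos m₁ with h | h
    · rw [h] at hm₁; omega
    · exact h
  have e1 : m / e = m₁ := by rw [hm₁]; exact Nat.mul_div_cancel_left _ he0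
  have e2 : e / e₁ = e₂ := by rw [he₂]; exact Nat.mul_div_cancel_left _ he10
  have e3 : M / e₁ = M₁ := by rw [hM₁]; exact Nat.mul_div_cancel_left _ he10
  have e4 : s / e = s₁ := by
    rw [hs₁]; exact Int.mul_ediv_cancel_left _ (by exact_mod_cast he0.ne')
  have hcop : Nat.Coprime M₁ e₂ := by
    have h1 : Nat.gcd (e₁ * M₁) (e₁ * e₂) = e₁ := by rw [← hM₁, ← he₂, ← he₁]
    rw [Nat.gcd_mul_left] at h1
    exact Nat.eq_of_mul_eq_mul_left he10 (by rw [h1, mul_one])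
  rw [e1, e2, e3]
  unfold NC
  symm
  apply Finset.card_bij (fun c _ => e₂ * c)
  · intro c hc
    rw [mem_filter, mem_Icc] at hc ⊢
    obtain ⟨⟨hc1, hc2⟩, hc3⟩ := hc
    rw [rs_modEq s e m₁ _ hm10, e4] at hc3
    refine ⟨⟨Nat.mul_pos he20 hc1, ?_⟩, ?_⟩
    · exact (Nat.mul_le_mul_left _ hc2).trans (Nat.mul_div_le _ _)
    · obtain ⟨t, ht⟩ := hc3
      refine ⟨t, ?_⟩
      rw [hm₁, hM₁, hs₁]
      push_cast at ht ⊢
      have h2 : (e : ℤ) = e₁ * e₂ := by exact_mod_cast he₂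
      calc (e₁ : ℤ) * M₁ * (e₂ * c) - e * s₁ = e * (M₁ * c - s₁) := by rw [h2]; ring
        _ = e * (m₁ * t) := by rw [ht]
        _ = _ := by ring
  · intro a _ b _ hab
    exact Nat.eq_of_mul_eq_mul_left he20 hab
  · intro c hc
    rw [mem_filter, mem_Icc] at hc
    obtain ⟨⟨hc1, hc2⟩, hc3⟩ := hc
    have h2 : (e : ℤ) = e₁ * e₂ := by exact_mod_cast he₂
    -- e ∣ M c
    have h3 : (e : ℤ) ∣ (M : ℤ) * c := by
      have h4 : (e : ℤ) ∣ (M : ℤ) * c - s := by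
        refine dvd_trans ?_ hc3
        rw [hm₁]; push_cast; exact dvd_mul_right _ _
      have h5 : (e : ℤ) ∣ s := by rw [hs₁]; exact dvd_mul_right _ _
      have := dvd_add h4 h5
      simpa using this
    have h4 : e ∣ M * c := by exact_mod_cast h3
    rw [he₂, hM₁, mul_assoc] at h4
    have h5 : e₂ ∣ M₁ * c := Nat.dvd_of_mul_dvd_mul_left he10 h4
    have h6 : e₂ ∣ c := (hcop.symm).dvd_of_dvd_mul_left h5
    obtain ⟨c₁, hc₁⟩ := h6
    refine ⟨c₁, ?_, hc₁.symm⟩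
    rw [mem_filter, mem_Icc]
    refine ⟨⟨?_, ?_⟩, ?_⟩
    · rcases Nat.eq_zero_or_pos c₁ with h | h
      · rw [h] at hc₁; omega
      · exact h
    · rw [Nat.le_div_iff_mul_le he20]
      rw [hc₁] at hc2
      linarith
    · rw [rs_modEq s e m₁ _ hm10, e4]
      obtain ⟨t, ht⟩ := hc3
      refine ⟨t, ?_⟩
      rw [hm₁, hM₁, hs₁, hc₁] at ht
      push_cast at ht ⊢
      have he' : (e : ℤ) ≠ 0 := by exact_mod_cast he0.ne'
      apply mul_left_cancel₀ he'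
      calc (e : ℤ) * (M₁ * c₁ - s₁) = e₁ * M₁ * (e₂ * c₁) - e * s₁ := by rw [h2]; ring
        _ = e * m₁ * t := ht
        _ = _ := by ring

/-- the same reduction for the main term -/
lemma NM_red (h : ℕ) (hh : 1 ≤ h) (m M Y : ℕ) (hm : 1 ≤ m) (hM : 1 ≤ M) (e e₁ : ℕ)
    (he : e = Nat.gcd m h) (he₁ : e₁ = Nat.gcd M e) :
    |NM h m M Y - (if (M / e₁).Coprime (m / e) then (((Y / (e / e₁) : ℕ)) : ℝ) / ((m / e : ℕ) : ℝ) else 0)| ≤
      1 / ((m / e : ℕ) : ℝ) := by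
  have he0 : 0 < e := by rw [he]; exact Nat.gcd_pos_of_pos_left _ hm
  have hem : e ∣ m := by rw [he]; exact Nat.gcd_dvd_left _ _
  have heh : e ∣ h := by rw [he]; exact Nat.gcd_dvd_right _ _
  have he1e : e₁ ∣ e := by rw [he₁]; exact Nat.gcd_dvd_right _ _
  have he1M : e₁ ∣ M := by rw [he₁]; exact Nat.gcd_dvd_left _ _
  have he10 : 0 < e₁ := Nat.pos_of_dvd_of_pos he1e he0
  obtain ⟨m₁, hm₁⟩ := hem
  obtain ⟨e₂, he₂⟩ := he1e
  obtain ⟨M₁, hM₁⟩ := he1M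
  have he20 : 0 < e₂ := by
    rcases Nat.eq_zero_or_pos e₂ with h | h
    · rw [h] at he₂; omega
    · exact h
  have hm10 : 1 ≤ m₁ := by
    rcases Nat.eq_zero_or_pos m₁ with h | h
    · rw [h] at hm₁; omega
    · exact h
  have e1 : m / e = m₁ := by rw [hm₁]; exact Nat.mul_div_cancel_left _ he0
  have e2 : e / e₁ = e₂ := by rw [he₂]; exact Nat.mul_div_cancel_left _ he10
  have e3 : M / e₁ = M₁ := by rw [hM₁]; exact Nat.mul_div_cancel_left _ he10
  have hcop : Nat.Coprime M₁ e₂ := by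
    have h1 : Nat.gcd (e₁ * M₁) (e₁ * e₂) = e₁ := by rw [← hM₁, ← he₂, ← he₁]
    rw [Nat.gcd_mul_left] at h1
    exact Nat.eq_of_mul_eq_mul_left he10 (by rw [h1, mul_one])
  rw [e1, e2, e3]
  -- gcd m M = e₁ * gcd m₁ M₁
  have hgcd : Nat.gcd m M = e₁ * Nat.gcd m₁ M₁ := by
    rw [hm₁, he₂, hM₁, mul_assoc, Nat.gcd_mul_left]
    congr 1
    exact Nat.Coprime.gcd_mul_left_cancel m₁ hcop.symm
  have hiff : Nat.gcd m M ∣ h ↔ M₁.Coprime m₁ := by
    constructor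
    · intro hd
      set g := Nat.gcd m₁ M₁ with hg
      have hge2 : Nat.Coprime g e₂ := Nat.Coprime.coprime_dvd_left (Nat.gcd_dvd_right _ _) hcop
      rw [hgcd] at hd
      -- e₁ g ∣ h, e₁ e₂ ∣ h
      have h1 : e₁ * (e₂ * g) ∣ h := by
        obtain ⟨h', hh'⟩ := (dvd_trans (Dvd.intro _ he₂.symm) heh : e₁ ∣ h)
        rw [hh'] at hd heh ⊢
        have d1 : g ∣ h' := Nat.dvd_of_mul_dvd_mul_left he10 hd
        have d2 : e₂ ∣ h' := by
          rw [he₂] at heh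
          exact Nat.dvd_of_mul_dvd_mul_left he10 heh
        exact Nat.mul_dvd_mul_left e₁ (Nat.Coprime.mul_dvd_of_dvd_of_dvd hge2.symm d2 d1)
      have h2 : e₁ * (e₂ * g) ∣ m := by
        rw [hm₁, he₂, mul_assoc]
        exact Nat.mul_dvd_mul_left e₁ (Nat.mul_dvd_mul_left e₂ (Nat.gcd_dvd_left _ _))
      have h3 : e₁ * (e₂ * g) ∣ e := by
        rw [he]; exact Nat.dvd_gcd h2 h1
      have h4 : e * g ∣ e * 1 := by
        rw [mul_one]
        calc e * g = e₁ * (e₂ * g) := by rw [he₂]; ring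
          _ ∣ e := h3
      have h5 : g ∣ 1 := Nat.dvd_of_mul_dvd_mul_left he0 h4
      have h6 : g = 1 := Nat.dvd_one.mp h5
      rw [Nat.coprime_comm]
      exact h6
    · intro hc
      have : Nat.gcd m₁ M₁ = 1 := hc.symm
      rw [hgcd, this, mul_one]
      exact (Dvd.intro _ he₂.symm).trans heh
  unfold NM
  by_cases hc : M₁.Coprime m₁
  · rw [if_pos (hiff.mpr hc), if_pos hc]
    have hg1 : Nat.gcd m₁ M₁ = 1 := hc.symm
    rw [hgcd, hg1, mul_one]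
    have hm1r : (0 : ℝ) < m₁ := by exact_mod_cast hm10
    have he1r : (0 : ℝ) < e₁ := by exact_mod_cast he10
    have he2r : (0 : ℝ) < e₂ := by exact_mod_cast he20
    have hmr : (m : ℝ) = e₁ * e₂ * m₁ := by rw [hm₁, he₂]; push_cast; ring
    have hmain : (Y : ℝ) * e₁ / m = (Y / e₂) / m₁ := by
      rw [hmr]; field_simp
    rw [hmain, ← sub_div, abs_div, abs_of_pos hm1r]
    apply div_le_div_of_nonneg_right _ hm1r.le
    have h1 : (((Y / e₂ : ℕ)) : ℝ) ≤ (Y : ℝ) / e₂ := Nat.cast_div_le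
    have h2 : (Y : ℝ) / e₂ < ((Y / e₂ : ℕ) : ℝ) + 1 := by
      rw [div_lt_iff₀ he2r]
      have := Nat.lt_mul_div_succ Y he20
      have h3 : Y < (Y / e₂ + 1) * e₂ := by rw [mul_comm]; exact this
      exact_mod_cast h3
    rw [abs_le]
    constructor <;> linarith
  · rw [if_neg (fun hd => hc (hiff.mp hd)), if_neg hc, sub_zero, abs_zero]
    positivity

end Pool.Agent.H329R2.AD
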