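import Mathlib
import Pool.Agent.H329R2.AD.Defs
import Pool.Agent.H329R2.AD.E1

/-! # E2: the error term for arbitrary residues -/

set_option autoImplicit false

open Finset

namespace Pool.Agent.H329R2.AD

/-- statement of the Bombieri-Vinogradov type lemma (task D) -/
def BVStmt : Prop := ∀ ε δ : ℝ, 0 < ε → 0 < δ → ∃ θ C : ℝ, 0 < θ ∧ ∀ x : ℝ, 1 ≤ x →
    ∀ (U Y : ℕ) (α : ℕ → ℝ) (a : ℕ → ℕ), (U : ℝ) ≤ x ^ (1 - δ) → (Y : ℝ) ≤ x ^ (1 - δ) →
      (U : ℝ) * Y ≤ x → (∀ n, |α n| ≤ 1) →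
      ∑ m ∈ (Icc 1 ⌊x ^ (1 / 2 - ε)⌋₊).filter (fun m => (a m).Coprime m),
        |∑ M ∈ Icc 1 U, α M * ((((Icc 1 Y).filter (fun c => M * c ≡ a m [MOD m])).card : ℝ) -
          if M.Coprime m then (Y : ℝ) / m else 0)| ≤ C * x ^ (1 - θ)

/-- the inner sum of `BVStmt` -/
noncomputable def GI (U Y : ℕ) (α : ℕ → ℝ) (a m : ℕ) : ℝ :=
  |∑ M ∈ Icc 1 U, α M * ((((Icc 1 Y).filter (fun c => M * c ≡ a [MOD m])).card : ℝ) -
          if M.Coprime m then (Y : ℝ) / m else 0)|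

/-- the coefficients after the reduction -/
noncomputable def al (α : ℕ → ℝ) (e e₁ : ℕ) (M : ℕ) : ℝ := if Nat.gcd (e₁ * M) e = e₁ then α (e₁ * M) else 0

lemma per_m (s : ℤ) (hs : s ≠ 0) (U Y : ℕ) (α : ℕ → ℝ) (hα : ∀ n, |α n| ≤ 1) (m : ℕ) (hm : 1 ≤ m) :
    |∑ M ∈ Icc 1 U, α M * ((NC s m M Y : ℝ) - NM s.natAbs m M Y)| ≤
      ∑ e₁ ∈ (Nat.gcd m s.natAbs).divisors,
        (GI (U / e₁) (Y / (Nat.gcd m s.natAbs / e₁)) (al α (Nat.gcd m s.natAbs) e₁)
          (rs s (Nat.gcd m s.natAbs) (m / Nat.gcd m s.natAbs)) (m / Nat.gcd m s.natAbs) +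
          U / ((m / Nat.gcd m s.natAbs : ℕ) : ℝ)) := by
  set h := s.natAbs with hh
  have hh1 : 1 ≤ h := Nat.one_le_iff_ne_zero.mpr (Int.natAbs_ne_zero.mpr hs)
  set e := Nat.gcd m h with he
  have he0 : 0 < e := Nat.gcd_pos_of_pos_left _ hm
  set m₁ := m / e with hm₁
  -- split over e₁
  have hsplit : ∑ M ∈ Icc 1 U, α M * ((NC s m M Y : ℝ) - NM h m M Y) =
      ∑ e₁ ∈ e.divisors, ∑ M ∈ (Icc 1 U).filter (fun M => Nat.gcd M e = e₁),
        α M * ((NC s m M Y : ℝ) - NM h m M Y) := by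
    rw [sum_fiberwise_of_maps_to]
    intro M _
    exact Nat.mem_divisors.mpr ⟨Nat.gcd_dvd_right _ _, he0.ne'⟩
  rw [hsplit]
  refine (abs_sum_le_sum_abs _ _).trans (sum_le_sum ?_)
  intro e₁ he₁
  rw [Nat.mem_divisors] at he₁
  have he10 : 0 < e₁ := Nat.pos_of_dvd_of_pos he₁.1 he0
  -- reindex
  have hre : ∀ F : ℕ → ℝ, ∑ M ∈ (Icc 1 U).filter (fun M => Nat.gcd M e = e₁), F M =
      ∑ M ∈ Icc 1 (U / e₁), if Nat.gcd (e₁ * M) e = e₁ then F (e₁ * M) else 0 := by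
    intro F
    rw [← sum_filter]
    symm
    apply sum_bij (fun M _ => e₁ * M)
    · intro M hM
      rw [mem_filter, mem_Icc] at hM ⊢
      refine ⟨⟨Nat.mul_pos he10 hM.1.1, ?_⟩, hM.2⟩
      exact (Nat.mul_le_mul_left _ hM.1.2).trans (Nat.mul_div_le _ _)
    · intro a _ b _ hab
      exact Nat.eq_of_mul_eq_mul_left he10 hab
    · intro M hM
      rw [mem_filter, mem_Icc] at hM
      have hd : e₁ ∣ M := by rw [← hM.2]; exact Nat.gcd_dvd_left _ _
      obtain ⟨M', hM'⟩ := hd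
      refine ⟨M', ?_, hM'.symm⟩
      rw [mem_filter, mem_Icc]
      refine ⟨⟨?_, ?_⟩, by rw [← hM']; exact hM.2⟩
      · rcases Nat.eq_zero_or_pos M' with h | h
        · rw [h] at hM'; omega
        · exact h
      · rw [Nat.le_div_iff_mul_le he10, mul_comm, ← hM']
        exact hM.1.2
    · intro M _; rfl
  rw [hre]
  unfold GI
  set Y' := Y / (e / e₁) with hY'
  set a := rs s e m₁ with ha
  have hterm : ∀ M ∈ Icc 1 (U / e₁), |(if Nat.gcd (e₁ * M) e = e₁ then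
        α (e₁ * M) * ((NC s m (e₁ * M) Y : ℝ) - NM h m (e₁ * M) Y) else 0) -
      al α e e₁ M * ((((Icc 1 Y').filter (fun c => M * c ≡ a [MOD m₁])).card : ℝ) -
          if M.Coprime m₁ then (Y' : ℝ) / m₁ else 0)| ≤ 1 / (m₁ : ℝ) := by
    intro M hM
    rw [mem_Icc] at hM
    unfold al
    by_cases hg : Nat.gcd (e₁ * M) e = e₁
    · rw [if_pos hg, if_pos hg]
      have h1 := NC_red s hs m (e₁ * M) Y hm e e₁ he hg.symm
      have h2 := NM_red h hh1 m (e₁ * M) Y hm (Nat.mul_pos he10 hM.1) e e₁ he hg.symm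
      rw [Nat.mul_div_cancel_left _ he10] at h1 h2
      rw [h1]
      have h3 : α (e₁ * M) * ((((Icc 1 (Y / (e / e₁))).filter
          (fun c => M * c ≡ rs s e (m / e) [MOD (m / e)])).card : ℝ) - NM h m (e₁ * M) Y) -
        α (e₁ * M) * ((((Icc 1 Y').filter (fun c => M * c ≡ a [MOD m₁])).card : ℝ) -
          if M.Coprime m₁ then (Y' : ℝ) / m₁ else 0) =
        -(α (e₁ * M) * (NM h m (e₁ * M) Y - if M.Coprime m₁ then (Y' : ℝ) / m₁ else 0)) := by
        ring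
      rw [h3, abs_neg, abs_mul]
      calc |α (e₁ * M)| * |NM h m (e₁ * M) Y - if M.Coprime m₁ then (Y' : ℝ) / m₁ else 0| ≤
          1 * (1 / (m₁ : ℝ)) := mul_le_mul (hα _) h2 (abs_nonneg _) zero_le_one
        _ = _ := one_mul _
    · rw [if_neg hg, if_neg hg, zero_mul, sub_zero, abs_zero]
      positivity
  have h1 : |∑ M ∈ Icc 1 (U / e₁), ((if Nat.gcd (e₁ * M) e = e₁ then
        α (e₁ * M) * ((NC s m (e₁ * M) Y : ℝ) - NM h m (e₁ * M) Y) else 0) -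
      al α e e₁ M * ((((Icc 1 Y').filter (fun c => M * c ≡ a [MOD m₁])).card : ℝ) -
          if M.Coprime m₁ then (Y' : ℝ) / m₁ else 0))| ≤ U / (m₁ : ℝ) := by
    refine (abs_sum_le_sum_abs _ _).trans ((sum_le_sum hterm).trans ?_)
    rw [sum_const, nsmul_eq_mul, Nat.card_Icc, Nat.add_sub_cancel, mul_one_div]
    apply div_le_div_of_nonneg_right _ (Nat.cast_nonneg _)
    exact_mod_cast Nat.div_le_self U e₁
  rw [sum_sub_distrib] at h1
  have h2 := abs_sub_abs_le_abs_sub (∑ M ∈ Icc 1 (U / e₁), (if Nat.gcd (e₁ * M) e = e₁ then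
        α (e₁ * M) * ((NC s m (e₁ * M) Y : ℝ) - NM h m (e₁ * M) Y) else 0))
      (∑ M ∈ Icc 1 (U / e₁), al α e e₁ M * ((((Icc 1 Y').filter (fun c => M * c ≡ a [MOD m₁])).card : ℝ) -
          if M.Coprime m₁ then (Y' : ℝ) / m₁ else 0))
  linarith

lemma sum_inv_le (Q : ℕ) : ∑ m ∈ Icc 1 Q, (1 : ℝ) / m ≤ 1 + Real.log Q := by
  have h := harmonic_le_one_add_log Q
  have h2 : ((harmonic Q : ℚ) : ℝ) = ∑ m ∈ Icc 1 Q, (1 : ℝ) / m := by
    rw [harmonic_eq_sum_Icc]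
    push_cast
    apply sum_congr rfl
    intro i _
    rw [one_div]
  rw [← h2]; exact h

theorem err (hbv : BVStmt) (s : ℤ) (hs : s ≠ 0) (ε δ : ℝ) (hε : 0 < ε) (hδ : 0 < δ) (hδ1 : δ < 1) :
    ∃ θ C : ℝ, 0 < θ ∧ 0 ≤ C ∧ ∀ x : ℝ, 1 ≤ x → ∀ (U Y : ℕ) (α : ℕ → ℝ), (U : ℝ) ≤ x ^ (1 - δ) →
      (Y : ℝ) ≤ x ^ (1 - δ) → (U : ℝ) * Y ≤ x → (∀ n, |α n| ≤ 1) →
      ∑ m ∈ Icc 1 ⌊x ^ (1 / 2 - ε)⌋₊,
        |∑ M ∈ Icc 1 U, α M * ((NC s m M Y : ℝ) - NM s.natAbs m M Y)| ≤ C * x ^ (1 - θ) := by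
  obtain ⟨θ, C, hθ, hC⟩ := hbv ε δ hε hδ
  set h := s.natAbs with hh
  have hh1 : 1 ≤ h := Nat.one_le_iff_ne_zero.mpr (Int.natAbs_ne_zero.mpr hs)
  -- the logarithmic factor
  have hlog : ∀ x : ℝ, 1 ≤ x → 1 + Real.log x ≤ (1 + 2 / δ) * x ^ (δ / 2) := by
    intro x hx
    have h1 : 1 ≤ x ^ (δ / 2) := Real.one_le_rpow hx (by positivity)
    have h2 := Real.log_le_rpow_div (by linarith : 0 ≤ x) (by positivity : 0 < δ / 2)
    have h3 : x ^ (δ / 2) / (δ / 2) = (2 / δ) * x ^ (δ / 2) := by field_simp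
    rw [h3] at h2
    linarith
  set D : ℝ := (h.divisors.card : ℝ) * ((h.divisors.card : ℝ) * (|C| + (1 + 2 / δ))) with hD
  refine ⟨min θ (δ / 2), D, lt_min hθ (by positivity), by positivity, ?_⟩
  intro x hx U Y α hU hY hUY hα
  have hx0 : 0 < x := by linarith
  set Q := ⌊x ^ (1 / 2 - ε)⌋₊ with hQ
  -- bound for one pair (e, e₁)
  have hpair : ∀ e ∈ h.divisors, ∀ e₁ ∈ h.divisors,
      ∑ m₁ ∈ (Icc 1 Q).filter (fun m₁ => (rs s e m₁).Coprime m₁),
        (GI (U / e₁) (Y / (e / e₁)) (al α e e₁) (rs s e m₁) m₁ + U / (m₁ : ℝ)) ≤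
      (|C| + (1 + 2 / δ)) * x ^ (1 - min θ (δ / 2)) := by
    intro e he e₁ he₁
    rw [sum_add_distrib]
    have h1 := hC x hx (U / e₁) (Y / (e / e₁)) (al α e e₁) (fun m => rs s e m)
      (le_trans (by exact_mod_cast Nat.div_le_self _ _) hU)
      (le_trans (by exact_mod_cast Nat.div_le_self _ _) hY)
      (by
        refine le_trans ?_ hUY
        apply mul_le_mul
        · exact_mod_cast Nat.div_le_self _ _
        · exact_mod_cast Nat.div_le_self _ _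
        · positivity
        · positivity)
      (by
        intro n
        unfold al
        split_ifs
        · exact hα _
        · simp)
    have h2 : ∑ m₁ ∈ (Icc 1 Q).filter (fun m₁ => (rs s e m₁).Coprime m₁), (U : ℝ) / (m₁ : ℝ) ≤
        (1 + 2 / δ) * x ^ (1 - δ / 2) := by
      calc ∑ m₁ ∈ (Icc 1 Q).filter (fun m₁ => (rs s e m₁).Coprime m₁), (U : ℝ) / (m₁ : ℝ) ≤
          ∑ m₁ ∈ Icc 1 Q, (U : ℝ) / (m₁ : ℝ) :=
            sum_le_sum_of_subset_of_nonneg (filter_subset _ _) (fun _ _ _ => by positivity)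
        _ = U * ∑ m₁ ∈ Icc 1 Q, (1 : ℝ) / m₁ := by
            rw [mul_sum]; apply sum_congr rfl; intro i _; ring
        _ ≤ x ^ (1 - δ) * (1 + Real.log x) := by
            apply mul_le_mul hU _ (sum_nonneg fun _ _ => by positivity) (by positivity)
            refine (sum_inv_le Q).trans ?_
            rcases Nat.eq_zero_or_pos Q with h0 | h0
            · rw [h0]; simp [Real.log_nonneg hx]
            · have h3 : (Q : ℝ) ≤ x := by
                calc (Q : ℝ) ≤ x ^ (1 / 2 - ε) := Nat.floor_le (by positivity)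
                  _ ≤ x ^ (1 : ℝ) := Real.rpow_le_rpow_of_exponent_le hx (by linarith)
                  _ = x := Real.rpow_one x
              have := Real.log_le_log (by exact_mod_cast h0) h3
              linarith
        _ ≤ x ^ (1 - δ) * ((1 + 2 / δ) * x ^ (δ / 2)) :=
            mul_le_mul_of_nonneg_left (hlog x hx) (by positivity)
        _ = (1 + 2 / δ) * x ^ (1 - δ / 2) := by
            have : x ^ (1 - δ) * x ^ (δ / 2) = x ^ (1 - δ / 2) := by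
              rw [← Real.rpow_add hx0]; ring_nf
            rw [← this]; ring
    have h3 : x ^ (1 - θ) ≤ x ^ (1 - min θ (δ / 2)) :=
      Real.rpow_le_rpow_of_exponent_le hx (by linarith [min_le_left θ (δ / 2)])
    have h4 : x ^ (1 - δ / 2) ≤ x ^ (1 - min θ (δ / 2)) :=
      Real.rpow_le_rpow_of_exponent_le hx (by linarith [min_le_right θ (δ / 2)])
    have h5 : C * x ^ (1 - θ) ≤ |C| * x ^ (1 - min θ (δ / 2)) :=
      mul_le_mul (le_abs_self C) h3 (by positivity) (abs_nonneg C)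
    have h6 : (1 + 2 / δ) * x ^ (1 - δ / 2) ≤ (1 + 2 / δ) * x ^ (1 - min θ (δ / 2)) :=
      mul_le_mul_of_nonneg_left h4 (by positivity)
    unfold GI
    rw [add_mul]
    linarith
  -- sum over m
  have hm_le : ∀ m ∈ Icc 1 Q, |∑ M ∈ Icc 1 U, α M * ((NC s m M Y : ℝ) - NM h m M Y)| ≤
      ∑ e₁ ∈ (Nat.gcd m h).divisors,
        (GI (U / e₁) (Y / (Nat.gcd m h / e₁)) (al α (Nat.gcd m h) e₁)
          (rs s (Nat.gcd m h) (m / Nat.gcd m h)) (m / Nat.gcd m h) +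
          U / ((m / Nat.gcd m h : ℕ) : ℝ)) := by
    intro m hm
    rw [mem_Icc] at hm
    exact per_m s hs U Y α hα m hm.1
  refine (sum_le_sum hm_le).trans ?_
  have hGI0 : ∀ U Y α a m, 0 ≤ GI U Y α a m := fun _ _ _ _ _ => abs_nonneg _
  -- enlarge the divisors to divisors of h
  have hstep : ∑ m ∈ Icc 1 Q, ∑ e₁ ∈ (Nat.gcd m h).divisors,
        (GI (U / e₁) (Y / (Nat.gcd m h / e₁)) (al α (Nat.gcd m h) e₁)
          (rs s (Nat.gcd m h) (m / Nat.gcd m h)) (m / Nat.gcd m h) +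
          U / ((m / Nat.gcd m h : ℕ) : ℝ)) ≤
      ∑ m ∈ Icc 1 Q, ∑ e₁ ∈ h.divisors,
        (GI (U / e₁) (Y / (Nat.gcd m h / e₁)) (al α (Nat.gcd m h) e₁)
          (rs s (Nat.gcd m h) (m / Nat.gcd m h)) (m / Nat.gcd m h) +
          U / ((m / Nat.gcd m h : ℕ) : ℝ)) := by
    apply sum_le_sum
    intro m _
    apply sum_le_sum_of_subset_of_nonneg
    · exact Nat.divisors_subset_of_dvd (by omega) (Nat.gcd_dvd_right _ _)
    · intro e₁ _ _
      have := hGI0 (U / e₁) (Y / (Nat.gcd m h / e₁)) (al α (Nat.gcd m h) e₁)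
          (rs s (Nat.gcd m h) (m / Nat.gcd m h)) (m / Nat.gcd m h)
      positivity
  refine hstep.trans ?_
  -- inject m ↦ (gcd m h, m / gcd m h)
  set F : ℕ → ℕ → ℝ := fun e m₁ => ∑ e₁ ∈ h.divisors,
    (GI (U / e₁) (Y / (e / e₁)) (al α e e₁) (rs s e m₁) m₁ + U / (m₁ : ℝ)) with hF
  have hF0 : ∀ e m₁, 0 ≤ F e m₁ := by
    intro e m₁
    apply sum_nonneg
    intro e₁ _
    have := hGI0 (U / e₁) (Y / (e / e₁)) (al α e e₁) (rs s e m₁) m₁
    positivity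
  have hinj : ∑ m ∈ Icc 1 Q, F (Nat.gcd m h) (m / Nat.gcd m h) ≤
      ∑ e ∈ h.divisors, ∑ m₁ ∈ (Icc 1 Q).filter (fun m₁ => (rs s e m₁).Coprime m₁), F e m₁ := by
    rw [← sum_fiberwise_of_maps_to (s := Icc 1 Q) (t := h.divisors) (g := fun m => Nat.gcd m h)
      (fun m _ => Nat.mem_divisors.mpr ⟨Nat.gcd_dvd_right _ _, by omega⟩)]
    apply sum_le_sum
    intro e he
    rw [Nat.mem_divisors] at he
    have he0 : 0 < e := Nat.pos_of_dvd_of_pos he.1 hh1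
    have h1 : ∑ m ∈ (Icc 1 Q).filter (fun m => Nat.gcd m h = e), F (Nat.gcd m h) (m / Nat.gcd m h) =
        ∑ m₁ ∈ ((Icc 1 Q).filter (fun m => Nat.gcd m h = e)).image (fun m => m / e), F e m₁ := by
      rw [sum_image]
      · apply sum_congr rfl
        intro m hm
        rw [mem_filter] at hm
        rw [hm.2]
      · intro m hm m' hm' hmm
        simp only [coe_filter, Set.mem_setOf_eq] at hm hm'
        have d1 : e ∣ m := by rw [← hm.2]; exact Nat.gcd_dvd_left _ _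
        have d2 : e ∣ m' := by rw [← hm'.2]; exact Nat.gcd_dvd_left _ _
        simp only at hmm
        rw [← Nat.div_mul_cancel d1, ← Nat.div_mul_cancel d2, hmm]
    rw [h1]
    apply sum_le_sum_of_subset_of_nonneg
    · intro m₁ hm₁
      rw [mem_image] at hm₁
      obtain ⟨m, hm, rfl⟩ := hm₁
      rw [mem_filter, mem_Icc] at hm
      have d1 : e ∣ m := by rw [← hm.2]; exact Nat.gcd_dvd_left _ _
      have hpos : 1 ≤ m / e := Nat.div_pos (Nat.le_of_dvd hm.1.1 d1) he0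
      rw [mem_filter, mem_Icc]
      refine ⟨⟨hpos, (Nat.div_le_self _ _).trans hm.1.2⟩, ?_⟩
      apply rs_coprime s e _ hpos
      have hes : (e : ℤ) ∣ s := Int.natCast_dvd.mpr he.1
      obtain ⟨s₁, hs₁⟩ := hes
      have h2 : s / e = s₁ := by
        rw [hs₁]; exact Int.mul_ediv_cancel_left _ (by exact_mod_cast he0.ne')
      have h3 : h = e * s₁.natAbs := by
        rw [hh, hs₁, Int.natAbs_mul]; simp
      rw [h2]
      obtain ⟨m', hm'⟩ := d1
      have h4 : m / e = m' := by rw [hm']; exact Nat.mul_div_cancel_left _ he0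
      rw [h4]
      have h5 : Nat.gcd (e * m') (e * s₁.natAbs) = e := by rw [← hm', ← h3, hm.2]
      rw [Nat.gcd_mul_left] at h5
      have h6 : Nat.gcd m' s₁.natAbs = 1 := Nat.eq_of_mul_eq_mul_left he0 (by rw [h5, mul_one])
      rw [Nat.Coprime, Nat.gcd_comm]
      exact h6
    · intro m₁ _ _
      exact hF0 e m₁
  refine hinj.trans ?_
  calc ∑ e ∈ h.divisors, ∑ m₁ ∈ (Icc 1 Q).filter (fun m₁ => (rs s e m₁).Coprime m₁), F e m₁ =
      ∑ e ∈ h.divisors, ∑ e₁ ∈ h.divisors,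
        ∑ m₁ ∈ (Icc 1 Q).filter (fun m₁ => (rs s e m₁).Coprime m₁),
          (GI (U / e₁) (Y / (e / e₁)) (al α e e₁) (rs s e m₁) m₁ + U / (m₁ : ℝ)) := by
        apply sum_congr rfl
        intro e _
        rw [sum_comm]
    _ ≤ ∑ e ∈ h.divisors, ∑ e₁ ∈ h.divisors,
        (|C| + (1 + 2 / δ)) * x ^ (1 - min θ (δ / 2)) :=
        sum_le_sum fun e he => sum_le_sum fun e₁ he₁ => hpair e he e₁ he₁
    _ = D * x ^ (1 - min θ (δ / 2)) := by
        rw [sum_const, sum_const, nsmul_eq_mul, nsmul_eq_mul, hD]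
        ring

end Pool.Agent.H329R2.AD
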