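import Mathlib
import Pool.Agent.H329R2.AD.Defs
import Pool.Agent.H329R2.AD.E1
import Pool.Agent.H329R2.AD.E2

/-! # E3: the lower bound for the mixed sums -/

set_option autoImplicit false

open Finset Filter Topology

namespace Pool.Agent.H329R2.AD

/-- statement of the divisor bound (task B1) -/
def DBStmt : Prop := ∀ (k : ℕ) (ε : ℝ), 0 < ε → ∃ C : ℝ, 1 ≤ C ∧ ∀ n : ℕ, 1 ≤ n → dk k n ≤ C * (n : ℝ) ^ ε

lemma dk_nonneg (k n : ℕ) : 0 ≤ dk k n := by unfold dk; positivity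

lemma dk_succ (k n : ℕ) : dk (k + 1) n = ∑ M ∈ n.divisors, dk k M := by
  unfold dk
  rw [pow_succ, ArithmeticFunction.mul_zeta_apply]
  push_cast
  rfl

/-- the summand of `BB` -/
noncomputable def bt (k h m M : ℕ) : ℝ :=
  if Nat.gcd m M ∣ h then dk k m * dk k M * (Nat.gcd m M : ℝ) / ((m : ℝ) * (M : ℝ)) else 0

lemma bt_nonneg (k h m M : ℕ) : 0 ≤ bt k h m M := by
  unfold bt
  have := dk_nonneg k m
  have := dk_nonneg k M
  split_ifs <;> positivity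

lemma BB_diff (k h : ℕ) (y a b : ℝ) (hab : a ≤ b) :
    BB k h y b - BB k h y a = ∑ m ∈ Icc 1 ⌊y⌋₊, ∑ M ∈ Ioc ⌊a⌋₊ ⌊b⌋₊, bt k h m M := by
  unfold BB
  rw [← sum_sub_distrib]
  apply sum_congr rfl
  intro m _
  have h1 : Icc 1 ⌊b⌋₊ = Icc 1 ⌊a⌋₊ ∪ Ioc ⌊a⌋₊ ⌊b⌋₊ := by
    ext M
    rw [mem_union, mem_Icc, mem_Icc, mem_Ioc]
    have := Nat.floor_le_floor hab
    omega
  have h2 : Disjoint (Icc 1 ⌊a⌋₊) (Ioc ⌊a⌋₊ ⌊b⌋₊) := by
    rw [Finset.disjoint_left]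
    intro M hM hM'
    rw [mem_Icc] at hM
    rw [mem_Ioc] at hM'
    omega
  rw [h1, sum_union h2]
  unfold bt
  ring

/-- (b): the sum is at least the restricted sum over `m`, `M`, `c` -/
lemma restrict (k : ℕ) (s : ℤ) (X Q : ℕ) (S : Finset ℕ) (Y : ℕ → ℕ)
    (hS : ∀ M ∈ S, s.natAbs < M) (hY : ∀ M ∈ S, ∀ c, 1 ≤ c → c ≤ Y M → M * c ≤ X) :
    ∑ m ∈ Icc 1 Q, dk k m * ∑ M ∈ S, dk k M * (NC s m M (Y M) : ℝ) ≤
      ∑ N ∈ Ioc s.natAbs X, dk (k + 1) N *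
        ∑ m ∈ (Icc 1 Q).filter (fun m : ℕ => (m : ℤ) ∣ (N : ℤ) - s), dk k m := by
  have h1 : ∑ N ∈ Ioc s.natAbs X, dk (k + 1) N *
        ∑ m ∈ (Icc 1 Q).filter (fun m : ℕ => (m : ℤ) ∣ (N : ℤ) - s), dk k m =
      ∑ m ∈ Icc 1 Q, dk k m * ∑ N ∈ (Ioc s.natAbs X).filter (fun N : ℕ => (m : ℤ) ∣ (N : ℤ) - s),
        dk (k + 1) N := by
    simp_rw [sum_filter, mul_sum]
    rw [sum_comm]
    apply sum_congr rfl
    intro m _
    apply sum_congr rfl
    intro N _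
    split_ifs <;> ring
  rw [h1]
  apply sum_le_sum
  intro m _
  apply mul_le_mul_of_nonneg_left _ (dk_nonneg k m)
  -- for fixed m
  have h2 : ∀ N ∈ (Ioc s.natAbs X).filter (fun N : ℕ => (m : ℤ) ∣ (N : ℤ) - s),
      ∑ M ∈ S, (if M ∣ N then dk k M else 0) ≤ dk (k + 1) N := by
    intro N hN
    rw [mem_filter, mem_Ioc] at hN
    rw [dk_succ, ← sum_filter]
    apply sum_le_sum_of_subset_of_nonneg
    · intro M hM
      rw [mem_filter] at hM
      exact Nat.mem_divisors.mpr ⟨hM.2, by omega⟩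
    · intro M _ _; exact dk_nonneg k M
  refine le_trans ?_ (sum_le_sum h2)
  rw [sum_comm]
  apply sum_le_sum
  intro M hM
  rw [← sum_filter, sum_const, nsmul_eq_mul, mul_comm]
  apply mul_le_mul_of_nonneg_right _ (dk_nonneg k M)
  -- counting
  have hM0 : 0 < M := lt_of_le_of_lt (Nat.zero_le _) (hS M hM)
  have h3 : NC s m M (Y M) ≤ (((Ioc s.natAbs X).filter (fun N : ℕ => (m : ℤ) ∣ (N : ℤ) - s)).filter
      (fun N => M ∣ N)).card := by
    unfold NC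
    apply card_le_card_of_injOn (fun c => M * c)
    · intro c hc
      simp only [coe_filter, mem_Icc, mem_Ioc, mem_filter] at hc ⊢
      obtain ⟨⟨hc1, hc2⟩, hc3⟩ := hc
      refine ⟨⟨⟨?_, hY M hM c hc1 hc2⟩, ?_⟩, dvd_mul_right _ _⟩
      · exact lt_of_lt_of_le (hS M hM) (Nat.le_mul_of_pos_right M hc1)
      · push_cast; exact hc3
    · intro a _ b _ hab
      exact Nat.eq_of_mul_eq_mul_left hM0 hab
  exact_mod_cast h3

/-- (c) + (d) for one block -/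
lemma block (k h : ℕ) (s : ℤ) (Q U Y : ℕ) (B : Finset ℕ) (D E η x : ℝ) (hD : 0 < D)
    (hη : 0 < η) (hQ : ∀ m ∈ Icc 1 Q, dk k m ≤ D) (hB : ∀ M ∈ B, 1 ≤ M ∧ M ≤ U ∧ dk k M ≤ D)
    (hh1 : 1 ≤ h) (hY : ∀ M ∈ B, x / ((1 + η) * M) - 1 ≤ (Y : ℝ))
    (hE : ∀ α : ℕ → ℝ, (∀ n, |α n| ≤ 1) →
      ∑ m ∈ Icc 1 Q, |∑ M ∈ Icc 1 U, α M * ((NC s m M Y : ℝ) - NM h m M Y)| ≤ E) :
    x / (1 + η) * ∑ m ∈ Icc 1 Q, ∑ M ∈ B, bt k h m M
      - h * (∑ m ∈ Icc 1 Q, dk k m / m) * (∑ M ∈ B, dk k M) - D ^ 2 * E ≤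
    ∑ m ∈ Icc 1 Q, dk k m * ∑ M ∈ B, dk k M * (NC s m M Y : ℝ) := by
  classical
  -- the coefficients
  set α : ℕ → ℝ := fun M => if M ∈ B then dk k M / D else 0 with hα
  have hα1 : ∀ n, |α n| ≤ 1 := by
    intro n
    simp only [hα]
    split_ifs with hn
    · rw [abs_of_nonneg (div_nonneg (dk_nonneg k n) hD.le), div_le_one hD]
      exact (hB n hn).2.2
    · simp
  have hE' := hE α hα1
  have hBsub : B ⊆ Icc 1 U := fun M hM => mem_Icc.mpr ⟨(hB M hM).1, (hB M hM).2.1⟩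
  have hconv : ∀ m, ∑ M ∈ Icc 1 U, α M * ((NC s m M Y : ℝ) - NM h m M Y) =
      (1 / D) * ∑ M ∈ B, dk k M * ((NC s m M Y : ℝ) - NM h m M Y) := by
    intro m
    rw [mul_sum, ← sum_subset hBsub]
    · apply sum_congr rfl
      intro M hM
      simp only [hα, if_pos hM]
      ring
    · intro M _ hM
      simp only [hα, if_neg hM, zero_mul]
  -- error
  have herr : ∑ m ∈ Icc 1 Q, dk k m * |∑ M ∈ B, dk k M * ((NC s m M Y : ℝ) - NM h m M Y)| ≤
      D ^ 2 * E := by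
    calc ∑ m ∈ Icc 1 Q, dk k m * |∑ M ∈ B, dk k M * ((NC s m M Y : ℝ) - NM h m M Y)| ≤
        ∑ m ∈ Icc 1 Q, D * |∑ M ∈ B, dk k M * ((NC s m M Y : ℝ) - NM h m M Y)| :=
          sum_le_sum fun m hm => mul_le_mul_of_nonneg_right (hQ m hm) (abs_nonneg _)
      _ = D ^ 2 * ∑ m ∈ Icc 1 Q, |∑ M ∈ Icc 1 U, α M * ((NC s m M Y : ℝ) - NM h m M Y)| := by
          rw [mul_sum]
          apply sum_congr rfl
          intro m _
          rw [hconv, abs_mul, abs_of_pos (by positivity : 0 < 1 / D)]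
          field_simp
      _ ≤ D ^ 2 * E := mul_le_mul_of_nonneg_left hE' (by positivity)
  have h1 : ∑ m ∈ Icc 1 Q, dk k m * ∑ M ∈ B, dk k M * NM h m M Y - D ^ 2 * E ≤
      ∑ m ∈ Icc 1 Q, dk k m * ∑ M ∈ B, dk k M * (NC s m M Y : ℝ) := by
    have : ∑ m ∈ Icc 1 Q, dk k m * ∑ M ∈ B, dk k M * NM h m M Y -
        ∑ m ∈ Icc 1 Q, dk k m * ∑ M ∈ B, dk k M * (NC s m M Y : ℝ) ≤ D ^ 2 * E := by
      rw [← sum_sub_distrib]
      refine le_trans (sum_le_sum ?_) herr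
      intro m _
      rw [← mul_sub, ← sum_sub_distrib]
      apply mul_le_mul_of_nonneg_left _ (dk_nonneg k m)
      have h2 : ∑ M ∈ B, (dk k M * NM h m M Y - dk k M * (NC s m M Y : ℝ)) =
          -∑ M ∈ B, dk k M * ((NC s m M Y : ℝ) - NM h m M Y) := by
        rw [← sum_neg_distrib]
        apply sum_congr rfl
        intro M _; ring
      rw [h2]
      exact neg_le_abs _
    linarith
  -- main term
  have h2 : x / (1 + η) * ∑ m ∈ Icc 1 Q, ∑ M ∈ B, bt k h m M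
      - h * (∑ m ∈ Icc 1 Q, dk k m / m) * (∑ M ∈ B, dk k M) ≤
      ∑ m ∈ Icc 1 Q, dk k m * ∑ M ∈ B, dk k M * NM h m M Y := by
    have h3 : x / (1 + η) * ∑ m ∈ Icc 1 Q, ∑ M ∈ B, bt k h m M
      - h * (∑ m ∈ Icc 1 Q, dk k m / m) * (∑ M ∈ B, dk k M) =
      ∑ m ∈ Icc 1 Q, ∑ M ∈ B, (x / (1 + η) * bt k h m M - h * (dk k m / m) * dk k M) := by
      simp_rw [sum_sub_distrib]
      rw [mul_sum]
      simp_rw [mul_sum, sum_mul]
      congr 1
      rw [sum_comm]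
    rw [h3]
    apply sum_le_sum
    intro m hm
    rw [mul_sum]
    apply sum_le_sum
    intro M hM
    rw [mem_Icc] at hm
    have hmr : (0 : ℝ) < m := by exact_mod_cast hm.1
    have hMr : (0 : ℝ) < M := by exact_mod_cast (hB M hM).1
    have hf1 := dk_nonneg k m
    have hf2 := dk_nonneg k M
    have hYM := hY M hM
    unfold bt NM
    by_cases hg : Nat.gcd m M ∣ h
    · rw [if_pos hg, if_pos hg]
      have hgle : (Nat.gcd m M : ℝ) ≤ h := by exact_mod_cast Nat.le_of_dvd hh1 hg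
      have hg0 : (0 : ℝ) ≤ Nat.gcd m M := Nat.cast_nonneg _
      set g : ℝ := (Nat.gcd m M : ℝ) with hgdef
      have e1 : dk k m * (dk k M * ((Y : ℝ) * g / m)) = (dk k m * dk k M / m) * (g * Y) := by
        field_simp
      have e2 : x / (1 + η) * (dk k m * dk k M * g / (m * M)) - h * (dk k m / m) * dk k M =
          (dk k m * dk k M / m) * (g * (x / ((1 + η) * M)) - h) := by
        have : (1 + η : ℝ) ≠ 0 := by positivity
        field_simp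
      rw [e1, e2]
      apply mul_le_mul_of_nonneg_left _ (by positivity)
      nlinarith
    · rw [if_neg hg, if_neg hg]
      simp only [mul_zero, zero_sub]
      simp only [Left.neg_nonpos_iff]
      positivity
  linarith

end Pool.Agent.H329R2.AD
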