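import Mathlib
import Pool.Agent.H329R2.AD.Defs
import Pool.Agent.H329R2.AD.E1
import Pool.Agent.H329R2.AD.E2
import Pool.Agent.H329R2.AD.E3

/-! # E4: `T_lower` -/

set_option autoImplicit false

open Finset Filter Topology

namespace Pool.Agent.H329R2.AD

/-- block index of `M` -/
noncomputable def jf (a η : ℝ) (M : ℕ) : ℕ := ⌊Real.log (M / a) / Real.log (1 + η)⌋₊

lemma jf_bounds (a η : ℝ) (ha : 0 < a) (hη : 0 < η) (M : ℕ) (hM : a ≤ M) :
    a * (1 + η) ^ (jf a η M) ≤ M ∧ (M : ℝ) < a * (1 + η) ^ (jf a η M + 1) := by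
  have hM0 : (0 : ℝ) < M := lt_of_lt_of_le ha hM
  have hl : 0 < Real.log (1 + η) := Real.log_pos (by linarith)
  have hr : 1 ≤ (M : ℝ) / a := by rw [le_div_iff₀ ha]; linarith
  have hr0 : 0 < (M : ℝ) / a := by positivity
  have hlr : 0 ≤ Real.log (M / a) := Real.log_nonneg hr
  have h1 : ((jf a η M : ℕ) : ℝ) ≤ Real.log (M / a) / Real.log (1 + η) := Nat.floor_le (by positivity)
  have h2 : Real.log (M / a) / Real.log (1 + η) < ((jf a η M : ℕ) : ℝ) + 1 := Nat.lt_floor_add_one _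
  rw [le_div_iff₀ hl] at h1
  rw [div_lt_iff₀ hl] at h2
  constructor
  · have h3 : (1 + η) ^ (jf a η M) ≤ (M : ℝ) / a := by
      rw [← Real.log_le_log_iff (by positivity) hr0, Real.log_pow]
      exact h1
    rw [le_div_iff₀ ha] at h3
    linarith
  · have h3 : (M : ℝ) / a < (1 + η) ^ (jf a η M + 1) := by
      rw [← Real.log_lt_log_iff hr0 (by positivity), Real.log_pow]
      push_cast
      exact h2
    rw [div_lt_iff₀ ha] at h3
    linarith

/-- the estimate for fixed `x` -/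
lemma T_fixed (k : ℕ) (s : ℤ) (hs : s ≠ 0) (ε δ η x D E : ℝ) (hε : 0 < ε) (hδ : 0 < δ)
    (hδ' : δ < 1 / 2) (hη : 0 < η) (hx : 1 < x) (hsx : (s.natAbs : ℝ) ≤ x ^ δ) (hD : 0 < D) (hE0 : 0 ≤ E)
    (hdk : ∀ n : ℕ, 1 ≤ n → (n : ℝ) ≤ x → dk k n ≤ D)
    (hE : ∀ (U Y : ℕ) (α : ℕ → ℝ), (U : ℝ) ≤ x ^ (1 - δ) →
      (Y : ℝ) ≤ x ^ (1 - δ) → (U : ℝ) * Y ≤ x → (∀ n, |α n| ≤ 1) →
      ∑ m ∈ Icc 1 ⌊x ^ (1 / 2 - ε)⌋₊,
        |∑ M ∈ Icc 1 U, α M * ((NC s m M Y : ℝ) - NM s.natAbs m M Y)| ≤ E) :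
    x / (1 + η) * (BB k s.natAbs (x ^ (1 / 2 - ε)) (x ^ (1 - δ)) -
        BB k s.natAbs (x ^ (1 / 2 - ε)) (x ^ δ)) -
      (s.natAbs * (D * (1 + Real.log x)) * (D * x ^ (1 - δ)) +
        (Real.log x / Real.log (1 + η) + 1) * (D ^ 2 * E)) ≤
      ∑ N ∈ Ioc s.natAbs ⌊x⌋₊, dk (k + 1) N *
        ∑ m ∈ (Icc 1 ⌊x ^ (1 / 2 - ε)⌋₊).filter (fun m : ℕ => (m : ℤ) ∣ (N : ℤ) - s), dk k m := by
  have hx0 : 0 < x := by linarith
  have hx1 : 1 ≤ x := hx.le
  have hlx : 0 < Real.log x := Real.log_pos hx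
  have hlη : 0 < Real.log (1 + η) := Real.log_pos (by linarith)
  set h := s.natAbs with hh
  have hh1 : 1 ≤ h := Nat.one_le_iff_ne_zero.mpr (Int.natAbs_ne_zero.mpr hs)
  set Q := ⌊x ^ (1 / 2 - ε)⌋₊ with hQ
  set a := x ^ δ with ha
  set b := x ^ (1 - δ) with hb
  have ha0 : 0 < a := by positivity
  have ha1 : 1 ≤ a := Real.one_le_rpow hx1 hδ.le
  have hab : a ≤ b := Real.rpow_le_rpow_of_exponent_le hx1 (by linarith)
  have hb1 : 1 ≤ b := le_trans ha1 hab
  have hbx : b ≤ x := by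
    rw [hb]
    calc x ^ (1 - δ) ≤ x ^ (1 : ℝ) := Real.rpow_le_rpow_of_exponent_le hx1 (by linarith)
      _ = x := Real.rpow_one x
  have hxa : x / a = b := by
    rw [ha, hb, Real.rpow_sub hx0, Real.rpow_one]
  set S := Ioc ⌊a⌋₊ ⌊b⌋₊ with hS
  have hSM : ∀ M ∈ S, a < M ∧ (M : ℝ) ≤ b ∧ 1 ≤ M := by
    intro M hM
    rw [hS, mem_Ioc] at hM
    refine ⟨(Nat.floor_lt ha0.le).mp hM.1, ?_, by omega⟩
    exact (Nat.le_floor_iff (by linarith)).mp hM.2
  set J := ⌊Real.log x / Real.log (1 + η)⌋₊ + 1 with hJ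
  have hJr : (J : ℝ) ≤ Real.log x / Real.log (1 + η) + 1 := by
    rw [hJ]; push_cast
    have := Nat.floor_le (by positivity : 0 ≤ Real.log x / Real.log (1 + η))
    linarith
  have hjf : ∀ M ∈ S, jf a η M ∈ range J := by
    intro M hM
    obtain ⟨h1, h2, h3⟩ := hSM M hM
    rw [mem_range, hJ, Nat.lt_succ_iff]
    unfold jf
    apply Nat.floor_le_floor
    apply div_le_div_of_nonneg_right _ hlη.le
    apply Real.log_le_log (by positivity)
    rw [div_le_iff₀ ha0]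
    nlinarith
  -- the ranges for c
  set Yj : ℕ → ℕ := fun j => ⌊x / (a * (1 + η) ^ (j + 1))⌋₊ with hYj
  have hrest := restrict k s ⌊x⌋₊ Q S (fun M => Yj (jf a η M))
    (by
      intro M hM
      have h1 := (hSM M hM).1
      have h2 : (h : ℝ) < M := lt_of_le_of_lt hsx h1
      exact_mod_cast h2)
    (by
      intro M hM c hc1 hc2
      obtain ⟨h1, h2, h3⟩ := hSM M hM
      have h4 := (jf_bounds a η ha0 hη M h1.le).2
      apply Nat.le_floor
      push_cast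
      have h5 : (c : ℝ) ≤ x / (a * (1 + η) ^ (jf a η M + 1)) := by
        calc (c : ℝ) ≤ ((Yj (jf a η M) : ℕ) : ℝ) := by exact_mod_cast hc2
          _ ≤ _ := Nat.floor_le (by positivity)
      calc (M : ℝ) * c ≤ (a * (1 + η) ^ (jf a η M + 1)) * (x / (a * (1 + η) ^ (jf a η M + 1))) :=
            mul_le_mul h4.le h5 (Nat.cast_nonneg _) (by positivity)
        _ = x := by field_simp)
  refine le_trans ?_ hrest
  -- split into blocks
  have hfib : ∀ F : ℕ → ℝ, ∑ M ∈ S, F M = ∑ j ∈ range J, ∑ M ∈ S.filter (fun M => jf a η M = j), F M :=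
    fun F => (sum_fiberwise_of_maps_to hjf F).symm
  have hblocks : ∑ m ∈ Icc 1 Q, dk k m * ∑ M ∈ S, dk k M * (NC s m M (Yj (jf a η M)) : ℝ) =
      ∑ j ∈ range J, ∑ m ∈ Icc 1 Q, dk k m *
        ∑ M ∈ S.filter (fun M => jf a η M = j), dk k M * (NC s m M (Yj j) : ℝ) := by
    rw [sum_comm]
    apply sum_congr rfl
    intro m _
    rw [hfib, mul_sum]
    apply sum_congr rfl
    intro j _
    congr 1
    apply sum_congr rfl
    intro M hM
    rw [mem_filter] at hM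
    rw [hM.2]
  rw [hblocks]
  -- one block
  have hone : ∀ j ∈ range J, x / (1 + η) * ∑ m ∈ Icc 1 Q,
        ∑ M ∈ S.filter (fun M => jf a η M = j), bt k h m M
      - h * (∑ m ∈ Icc 1 Q, dk k m / m) * (∑ M ∈ S.filter (fun M => jf a η M = j), dk k M) - D ^ 2 * E ≤
      ∑ m ∈ Icc 1 Q, dk k m *
        ∑ M ∈ S.filter (fun M => jf a η M = j), dk k M * (NC s m M (Yj j) : ℝ) := by
    intro j _
    set Uj : ℝ := min (a * (1 + η) ^ (j + 1)) b with hUj
    have hUj0 : 0 ≤ Uj := le_min (by positivity) (by linarith)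
    apply block k h s Q ⌊Uj⌋₊ (Yj j) _ D E η x hD hη
    · intro m hm
      rw [mem_Icc] at hm
      apply hdk m hm.1
      calc (m : ℝ) ≤ Q := by exact_mod_cast hm.2
        _ ≤ x ^ (1 / 2 - ε) := Nat.floor_le (by positivity)
        _ ≤ x ^ (1 : ℝ) := Real.rpow_le_rpow_of_exponent_le hx1 (by linarith)
        _ = x := Real.rpow_one x
    · intro M hM
      rw [mem_filter] at hM
      obtain ⟨h1, h2, h3⟩ := hSM M hM.1
      refine ⟨h3, ?_, hdk M h3 (by linarith)⟩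
      apply Nat.le_floor
      apply le_min _ h2
      have := (jf_bounds a η ha0 hη M h1.le).2
      rw [hM.2] at this
      exact this.le
    · exact hh1
    · intro M hM
      rw [mem_filter] at hM
      obtain ⟨h1, h2, h3⟩ := hSM M hM.1
      have h4 := (jf_bounds a η ha0 hη M h1.le).1
      rw [hM.2] at h4
      have h5 : x / (a * (1 + η) ^ (j + 1)) < ((Yj j : ℕ) : ℝ) + 1 := Nat.lt_floor_add_one _
      have h6 : x / ((1 + η) * M) ≤ x / (a * (1 + η) ^ (j + 1)) := by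
        apply div_le_div_of_nonneg_left hx0.le (by positivity)
        calc a * (1 + η) ^ (j + 1) = (1 + η) * (a * (1 + η) ^ j) := by ring
          _ ≤ (1 + η) * M := mul_le_mul_of_nonneg_left h4 (by positivity)
      linarith
    · intro α hα
      apply hE ⌊Uj⌋₊ (Yj j) α _ _ _ hα
      · calc ((⌊Uj⌋₊ : ℕ) : ℝ) ≤ Uj := Nat.floor_le hUj0
          _ ≤ b := min_le_right _ _
      · calc ((Yj j : ℕ) : ℝ) ≤ x / (a * (1 + η) ^ (j + 1)) := Nat.floor_le (by positivity)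
          _ ≤ x / a := by
            apply div_le_div_of_nonneg_left hx0.le ha0
            have : 1 ≤ (1 + η) ^ (j + 1) := one_le_pow₀ (by linarith)
            nlinarith
          _ = b := hxa
      · calc ((⌊Uj⌋₊ : ℕ) : ℝ) * ((Yj j : ℕ) : ℝ) ≤
            (a * (1 + η) ^ (j + 1)) * (x / (a * (1 + η) ^ (j + 1))) := by
              apply mul_le_mul _ (Nat.floor_le (by positivity)) (Nat.cast_nonneg _) (by positivity)
              exact (Nat.floor_le hUj0).trans (min_le_left _ _)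
          _ = x := by field_simp
  have hsum := sum_le_sum hone
  refine le_trans ?_ hsum
  -- combine
  rw [sum_sub_distrib, sum_sub_distrib, ← mul_sum, ← mul_sum, sum_const, card_range, nsmul_eq_mul]
  have e1 : ∑ j ∈ range J, ∑ m ∈ Icc 1 Q, ∑ M ∈ S.filter (fun M => jf a η M = j), bt k h m M =
      BB k h (x ^ (1 / 2 - ε)) b - BB k h (x ^ (1 / 2 - ε)) a := by
    rw [BB_diff k h _ a b hab, sum_comm]
    apply sum_congr rfl
    intro m _
    exact (hfib _).symm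
  have e2 : ∑ j ∈ range J, ∑ M ∈ S.filter (fun M => jf a η M = j), dk k M = ∑ M ∈ S, dk k M :=
    (hfib _).symm
  rw [e1, e2]
  have e3 : ∑ M ∈ S, dk k M ≤ D * b := by
    calc ∑ M ∈ S, dk k M ≤ ∑ M ∈ S, D := by
          apply sum_le_sum
          intro M hM
          obtain ⟨h1, h2, h3⟩ := hSM M hM
          exact hdk M h3 (by linarith)
      _ = D * (S.card : ℝ) := by rw [sum_const, nsmul_eq_mul, mul_comm]
      _ ≤ D * b := by
          apply mul_le_mul_of_nonneg_left _ hD.le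
          rw [hS, Nat.card_Ioc]
          calc ((⌊b⌋₊ - ⌊a⌋₊ : ℕ) : ℝ) ≤ (⌊b⌋₊ : ℝ) := by exact_mod_cast Nat.sub_le _ _
            _ ≤ b := Nat.floor_le (by linarith)
  have hQx : (Q : ℝ) ≤ x := by
    calc (Q : ℝ) ≤ x ^ (1 / 2 - ε) := Nat.floor_le (by positivity)
      _ ≤ x ^ (1 : ℝ) := Real.rpow_le_rpow_of_exponent_le hx1 (by linarith)
      _ = x := Real.rpow_one x
  have e4 : ∑ m ∈ Icc 1 Q, dk k m / m ≤ D * (1 + Real.log x) := by
    calc ∑ m ∈ Icc 1 Q, dk k m / m ≤ ∑ m ∈ Icc 1 Q, D * (1 / (m : ℝ)) := by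
          apply sum_le_sum
          intro m hm
          rw [mem_Icc] at hm
          rw [div_eq_mul_one_div]
          apply mul_le_mul_of_nonneg_right _ (by positivity)
          apply hdk m hm.1
          calc (m : ℝ) ≤ Q := by exact_mod_cast hm.2
            _ ≤ x := hQx
      _ = D * ∑ m ∈ Icc 1 Q, 1 / (m : ℝ) := by rw [mul_sum]
      _ ≤ D * (1 + Real.log x) := by
          apply mul_le_mul_of_nonneg_left _ hD.le
          refine (sum_inv_le Q).trans ?_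
          rcases Nat.eq_zero_or_pos Q with h0 | h0
          · rw [h0]; simp [hlx.le]
          · have := Real.log_le_log (by exact_mod_cast h0) hQx
            linarith
  have e5 : (h : ℝ) * (∑ m ∈ Icc 1 Q, dk k m / m) * (∑ M ∈ S, dk k M) ≤
      h * (D * (1 + Real.log x)) * (D * b) := by
    have h0 : 0 ≤ ∑ m ∈ Icc 1 Q, dk k m / m :=
      sum_nonneg fun m _ => div_nonneg (dk_nonneg k m) (Nat.cast_nonneg _)
    have h0' : 0 ≤ ∑ M ∈ S, dk k M := sum_nonneg fun m _ => dk_nonneg k m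
    apply mul_le_mul _ e3 h0' (by positivity)
    exact mul_le_mul_of_nonneg_left e4 (Nat.cast_nonneg _)
  have e6 : (J : ℝ) * (D ^ 2 * E) ≤ (Real.log x / Real.log (1 + η) + 1) * (D ^ 2 * E) :=
    mul_le_mul_of_nonneg_right hJr (by positivity)
  linarith

theorem T_lower_of (hbv : BVStmt) (hdb : DBStmt) (k : ℕ) (s : ℤ) (hs : s ≠ 0) (ε δ η : ℝ) (hε : 0 < ε)
    (hδ : 0 < δ) (hδ' : δ < 1 / 2) (hη : 0 < η) : ∃ θ : ℝ, 0 < θ ∧ ∀ᶠ x : ℝ in atTop,
    x / (1 + η) * (BB k s.natAbs (x ^ (1 / 2 - ε)) (x ^ (1 - δ)) -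
        BB k s.natAbs (x ^ (1 / 2 - ε)) (x ^ δ)) - x ^ (1 - θ) ≤
      ∑ N ∈ Ioc s.natAbs ⌊x⌋₊, dk (k + 1) N *
        ∑ m ∈ (Icc 1 ⌊x ^ (1 / 2 - ε)⌋₊).filter (fun m : ℕ => (m : ℤ) ∣ (N : ℤ) - s), dk k m := by
  obtain ⟨θ₀, C₀, hθ₀, hC₀, herr⟩ := err hbv s hs ε δ hε hδ (by linarith)
  set t := min θ₀ δ with ht
  have ht0 : 0 < t := lt_min hθ₀ hδ
  obtain ⟨C₁, hC₁, hdkb⟩ := hdb k (t / 8) (by positivity)
  set h := s.natAbs with hh
  have hlη : 0 < Real.log (1 + η) := Real.log_pos (by linarith)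
  -- constant
  set K : ℝ := h * C₁ ^ 2 * (1 + 8 / t) + (8 / t / Real.log (1 + η) + 1) * (C₁ ^ 2 * C₀) with hK
  have hK0 : 0 ≤ K := by positivity
  refine ⟨t / 2, by positivity, ?_⟩
  have hev1 : ∀ᶠ x : ℝ in atTop, 1 < x := eventually_gt_atTop 1
  have hev2 : ∀ᶠ x : ℝ in atTop, (h : ℝ) ≤ x ^ δ :=
    (tendsto_rpow_atTop hδ).eventually_ge_atTop _
  have hev3 : ∀ᶠ x : ℝ in atTop, K ≤ x ^ (t / 8) :=
    (tendsto_rpow_atTop (by positivity : 0 < t / 8)).eventually_ge_atTop _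
  filter_upwards [hev1, hev2, hev3] with x hx hsx hKx
  have hx0 : 0 < x := by linarith
  have hx1 : 1 ≤ x := hx.le
  set L := x ^ (t / 8) with hL
  have hL1 : 1 ≤ L := Real.one_le_rpow hx1 (by positivity)
  have hL0 : 0 < L := by linarith
  have hlog : Real.log x ≤ (8 / t) * L := by
    have h2 := Real.log_le_rpow_div (by linarith : 0 ≤ x) (by positivity : 0 < t / 8)
    have h3 : x ^ (t / 8) / (t / 8) = (8 / t) * x ^ (t / 8) := by field_simp
    rw [h3] at h2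
    exact h2
  have hD : 0 < C₁ * L := by positivity
  have hfix := T_fixed k s hs ε δ η x (C₁ * L) (C₀ * x ^ (1 - θ₀)) hε hδ hδ' hη hx hsx hD (by positivity)
    (by
      intro n hn hnx
      refine (hdkb n hn).trans ?_
      apply mul_le_mul_of_nonneg_left _ (by linarith)
      exact Real.rpow_le_rpow (Nat.cast_nonneg _) hnx (by positivity))
    (fun U Y α h1 h2 h3 h4 => herr x hx1 U Y α h1 h2 h3 h4)
  refine le_trans ?_ hfix
  have hb1 : x ^ (1 - θ₀) ≤ x ^ (1 - t) :=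
    Real.rpow_le_rpow_of_exponent_le hx1 (by linarith [min_le_left θ₀ δ])
  have hb2 : x ^ (1 - δ) ≤ x ^ (1 - t) :=
    Real.rpow_le_rpow_of_exponent_le hx1 (by linarith [min_le_right θ₀ δ])
  have hB0 : 0 < x ^ (1 - t) := by positivity
  set B := x ^ (1 - t) with hB
  -- final: K L^3 B ≤ L^4 B = x^(1-t/2)
  have hfin : L * (L ^ 3 * B) = x ^ (1 - t / 2) := by
    have h1 : L ^ 3 = x ^ (3 * (t / 8)) := by
      rw [hL, ← Real.rpow_natCast, ← Real.rpow_mul hx0.le]; congr 1; push_cast; ring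
    rw [h1, hL, hB, ← Real.rpow_add hx0, ← Real.rpow_add hx0]
    congr 1; ring
  have hterm1 : (h : ℝ) * (C₁ * L * (1 + Real.log x)) * (C₁ * L * x ^ (1 - δ)) ≤
      h * C₁ ^ 2 * (1 + 8 / t) * (L ^ 3 * B) := by
    have e1 : 1 + Real.log x ≤ (1 + 8 / t) * L := by linarith
    calc (h : ℝ) * (C₁ * L * (1 + Real.log x)) * (C₁ * L * x ^ (1 - δ)) ≤
        (h : ℝ) * (C₁ * L * ((1 + 8 / t) * L)) * (C₁ * L * B) := by
          apply mul_le_mul
          · apply mul_le_mul_of_nonneg_left _ (Nat.cast_nonneg _)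
            exact mul_le_mul_of_nonneg_left e1 hD.le
          · exact mul_le_mul_of_nonneg_left hb2 hD.le
          · positivity
          · positivity
      _ = _ := by ring
  have hterm2 : (Real.log x / Real.log (1 + η) + 1) * ((C₁ * L) ^ 2 * (C₀ * x ^ (1 - θ₀))) ≤
      (8 / t / Real.log (1 + η) + 1) * (C₁ ^ 2 * C₀) * (L ^ 3 * B) := by
    have e1 : Real.log x / Real.log (1 + η) + 1 ≤ (8 / t / Real.log (1 + η) + 1) * L := by
      have : Real.log x / Real.log (1 + η) ≤ (8 / t / Real.log (1 + η)) * L := by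
        rw [div_mul_eq_mul_div]
        exact div_le_div_of_nonneg_right hlog hlη.le
      linarith
    calc (Real.log x / Real.log (1 + η) + 1) * ((C₁ * L) ^ 2 * (C₀ * x ^ (1 - θ₀))) ≤
        ((8 / t / Real.log (1 + η) + 1) * L) * ((C₁ * L) ^ 2 * (C₀ * B)) := by
          apply mul_le_mul e1 _ (by positivity) (by positivity)
          apply mul_le_mul_of_nonneg_left _ (by positivity)
          exact mul_le_mul_of_nonneg_left hb1 hC₀
      _ = _ := by ring
  have hsum : (h : ℝ) * (C₁ * L * (1 + Real.log x)) * (C₁ * L * x ^ (1 - δ)) +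
      (Real.log x / Real.log (1 + η) + 1) * ((C₁ * L) ^ 2 * (C₀ * x ^ (1 - θ₀))) ≤ x ^ (1 - t / 2) := by
    calc _ ≤ h * C₁ ^ 2 * (1 + 8 / t) * (L ^ 3 * B) +
        (8 / t / Real.log (1 + η) + 1) * (C₁ ^ 2 * C₀) * (L ^ 3 * B) := add_le_add hterm1 hterm2
      _ = K * (L ^ 3 * B) := by rw [hK]; ring
      _ ≤ L * (L ^ 3 * B) := mul_le_mul_of_nonneg_right hKx (by positivity)
      _ = _ := hfin
  linarith

end Pool.Agent.H329R2.AD
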