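import Mathlib
import Pool.Agent.H329R2.AD.Defs
import Pool.Agent.H329R2.AD.E3
import Pool.Agent.H380R2.ADA

/-! # G1: the inequality for fixed `X` -/

set_option autoImplicit false

open Finset Filter Topology

namespace Pool.Agent.H329R2.AD

/-- truncated divisor sum -/
noncomputable def aa (k y n : ℕ) : ℝ := ∑ m ∈ n.divisors.filter (fun m => m ≤ y), dk k m

lemma aa_nonneg (k y n : ℕ) : 0 ≤ aa k y n := sum_nonneg fun m _ => dk_nonneg k m

lemma aa_le (k y n : ℕ) : aa k y n ≤ dk (k + 1) n := by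
  rw [dk_succ]
  exact sum_le_sum_of_subset_of_nonneg (filter_subset _ _) (fun m _ _ => dk_nonneg k m)

lemma aa_eq (k y n : ℕ) (hn : 1 ≤ n) (z : ℤ) (hz : z = n) :
    ∑ m ∈ (Icc 1 y).filter (fun m : ℕ => (m : ℤ) ∣ z), dk k m = aa k y n := by
  unfold aa
  apply sum_congr _ (fun _ _ => rfl)
  ext m
  rw [mem_filter, mem_filter, mem_Icc, Nat.mem_divisors, hz, Int.natCast_dvd_natCast]
  constructor
  · rintro ⟨⟨h1, h2⟩, h3⟩
    exact ⟨⟨h3, by omega⟩, h2⟩
  · rintro ⟨⟨h1, h2⟩, h3⟩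
    exact ⟨⟨Nat.pos_of_dvd_of_pos h1 hn, h3⟩, h1⟩

lemma pw (k y n h : ℕ) :
    ((k : ℝ) + 1) * (aa k y n * dk (k + 1) (n + h)) + ((k : ℝ) + 1) * (dk (k + 1) n * aa k y (n + h))
      - ((k : ℝ) + 1) ^ 2 * (aa k y n * aa k y (n + h)) -
      (if n ≤ y ^ 2 then 2 * ((k : ℝ) + 1) * (dk (k + 1) n * dk (k + 1) (n + h)) else 0) ≤
    dk (k + 1) n * dk (k + 1) (n + h) := by
  have a1 := aa_nonneg k y n
  have a2 := aa_nonneg k y (n + h)
  have b1 := aa_le k y n
  have b2 := aa_le k y (n + h)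
  have d1 := dk_nonneg (k + 1) n
  have d2 := dk_nonneg (k + 1) (n + h)
  by_cases hn : n ≤ y ^ 2
  · rw [if_pos hn]
    have e1 : aa k y n * dk (k + 1) (n + h) ≤ dk (k + 1) n * dk (k + 1) (n + h) :=
      mul_le_mul_of_nonneg_right b1 d2
    have e2 : dk (k + 1) n * aa k y (n + h) ≤ dk (k + 1) n * dk (k + 1) (n + h) :=
      mul_le_mul_of_nonneg_left b2 d1
    have e3 : ((k : ℝ) + 1) * (aa k y n * dk (k + 1) (n + h)) ≤
        ((k : ℝ) + 1) * (dk (k + 1) n * dk (k + 1) (n + h)) := mul_le_mul_of_nonneg_left e1 (by positivity)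
    have e4 : ((k : ℝ) + 1) * (dk (k + 1) n * aa k y (n + h)) ≤
        ((k : ℝ) + 1) * (dk (k + 1) n * dk (k + 1) (n + h)) := mul_le_mul_of_nonneg_left e2 (by positivity)
    have e5 : 0 ≤ ((k : ℝ) + 1) ^ 2 * (aa k y n * aa k y (n + h)) := by positivity
    have e6 : 0 ≤ dk (k + 1) n * dk (k + 1) (n + h) := by positivity
    linarith
  · rw [if_neg hn]
    push Not at hn
    have p1 : ((k : ℝ) + 1) * aa k y n ≤ dk (k + 1) n := Pool.Agent.H380R2.ADA.ptw k n y hn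
    have p2 : ((k : ℝ) + 1) * aa k y (n + h) ≤ dk (k + 1) (n + h) :=
      Pool.Agent.H380R2.ADA.ptw k (n + h) y (by omega)
    nlinarith [mul_nonneg (sub_nonneg.mpr p1) (sub_nonneg.mpr p2)]

theorem fixed (k y h X : ℕ) (hh : 1 ≤ h) :
    ((k : ℝ) + 1) * ∑ N ∈ Ioc h X, dk (k + 1) N *
        ∑ m ∈ (Icc 1 y).filter (fun m : ℕ => (m : ℤ) ∣ (N : ℤ) - (h : ℤ)), dk k m +
      ((k : ℝ) + 1) * ∑ N ∈ Ioc h X, dk (k + 1) N *
        ∑ m ∈ (Icc 1 y).filter (fun m : ℕ => (m : ℤ) ∣ (N : ℤ) - (-(h : ℤ))), dk k m -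
      ((k : ℝ) + 1) ^ 2 * ∑ n ∈ Icc 1 X, aa k y n * aa k y (n + h) -
      2 * ((k : ℝ) + 1) * ∑ n ∈ Icc 1 (y ^ 2), dk (k + 1) n * dk (k + 1) (n + h) ≤
    ∑ n ∈ Icc 1 X, dk (k + 1) n * dk (k + 1) (n + h) := by
  have h1 : ∑ N ∈ Ioc h X, dk (k + 1) N *
        ∑ m ∈ (Icc 1 y).filter (fun m : ℕ => (m : ℤ) ∣ (N : ℤ) - (h : ℤ)), dk k m ≤
      ∑ n ∈ Icc 1 X, aa k y n * dk (k + 1) (n + h) := by
    calc ∑ N ∈ Ioc h X, dk (k + 1) N *
        ∑ m ∈ (Icc 1 y).filter (fun m : ℕ => (m : ℤ) ∣ (N : ℤ) - (h : ℤ)), dk k m =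
        ∑ N ∈ Ioc h X, aa k y (N - h) * dk (k + 1) ((N - h) + h) := by
          apply sum_congr rfl
          intro N hN
          rw [mem_Ioc] at hN
          rw [aa_eq k y (N - h) (by omega) _ (by push_cast [Nat.cast_sub hN.1.le]; ring),
            Nat.sub_add_cancel hN.1.le, mul_comm]
      _ = ∑ n ∈ (Ioc h X).image (fun N => N - h), aa k y n * dk (k + 1) (n + h) := by
          rw [sum_image]
          intro a ha b hb hab
          simp only [coe_Ioc, Set.mem_Ioc] at ha hb hab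
          omega
      _ ≤ _ := by
          apply sum_le_sum_of_subset_of_nonneg
          · intro n hn
            rw [mem_image] at hn
            obtain ⟨N, hN, rfl⟩ := hn
            rw [mem_Ioc] at hN
            rw [mem_Icc]
            omega
          · intro n _ _
            exact mul_nonneg (aa_nonneg _ _ _) (dk_nonneg _ _)
  have h2 : ∑ N ∈ Ioc h X, dk (k + 1) N *
        ∑ m ∈ (Icc 1 y).filter (fun m : ℕ => (m : ℤ) ∣ (N : ℤ) - (-(h : ℤ))), dk k m ≤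
      ∑ n ∈ Icc 1 X, dk (k + 1) n * aa k y (n + h) := by
    calc ∑ N ∈ Ioc h X, dk (k + 1) N *
        ∑ m ∈ (Icc 1 y).filter (fun m : ℕ => (m : ℤ) ∣ (N : ℤ) - (-(h : ℤ))), dk k m =
        ∑ N ∈ Ioc h X, dk (k + 1) N * aa k y (N + h) := by
          apply sum_congr rfl
          intro N hN
          rw [mem_Ioc] at hN
          rw [aa_eq k y (N + h) (by omega) _ (by push_cast; ring)]
      _ ≤ _ := by
          apply sum_le_sum_of_subset_of_nonneg
          · intro n hn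
            rw [mem_Ioc] at hn
            rw [mem_Icc]
            omega
          · intro n _ _
            exact mul_nonneg (dk_nonneg _ _) (aa_nonneg _ _ _)
  have h3 : ∑ n ∈ Icc 1 X, (if n ≤ y ^ 2 then 2 * ((k : ℝ) + 1) * (dk (k + 1) n * dk (k + 1) (n + h)) else 0) ≤
      2 * ((k : ℝ) + 1) * ∑ n ∈ Icc 1 (y ^ 2), dk (k + 1) n * dk (k + 1) (n + h) := by
    rw [mul_sum, ← sum_filter]
    apply sum_le_sum_of_subset_of_nonneg
    · intro n hn
      rw [mem_filter, mem_Icc] at hn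
      rw [mem_Icc]
      omega
    · intro n _ _
      have := dk_nonneg (k + 1) n
      have := dk_nonneg (k + 1) (n + h)
      positivity
  have h4 := sum_le_sum (fun n (_ : n ∈ Icc 1 X) => pw k y n h)
  rw [sum_sub_distrib, sum_sub_distrib, sum_add_distrib, ← mul_sum, ← mul_sum, ← mul_sum] at h4
  have h5 := mul_le_mul_of_nonneg_left h1 (by positivity : (0 : ℝ) ≤ (k : ℝ) + 1)
  have h6 := mul_le_mul_of_nonneg_left h2 (by positivity : (0 : ℝ) ≤ (k : ℝ) + 1)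
  linarith

end Pool.Agent.H329R2.AD
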