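import Mathlib
import Pool.Agent.H329R2.AD.Defs
import Pool.Agent.H329R2.AD.E4
import Pool.Agent.H329R2.AD.G1
import Pool.Agent.H380R2.ADA
import Pool.Agent.H909R2.ADB
import Pool.Agent.H909R2.ADF
import Pool.Agent.H896R2.AD.C
import Pool.Agent.H459R2.ADB2
import Pool.Agent.H109R2.ADD

/-! # G2: the asymptotic lower bound -/

set_option autoImplicit false

open Finset Filter Topology

namespace Pool.Agent.H329R2.AD

lemma BVStmt_holds : BVStmt := Pool.Agent.H109R2.ADD.bv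

lemma DBStmt_holds : DBStmt := Pool.Agent.H909R2.ADB.dk_bound

theorem BB_asymp (k h : ℕ) (hk : 1 ≤ k) (hh : 1 ≤ h) (a b : ℝ) (ha : 0 < a) (hb : 0 < b) :
    Tendsto (fun x : ℝ => BB k h (x ^ a) (x ^ b) / Real.log x ^ (2 * k)) atTop
      (𝓝 (a ^ k * b ^ k / (k.factorial : ℝ) ^ 2 * SS (k + 1) h)) :=
  Pool.Agent.H896R2.ADC.BB_asymp_of k h hh (Pool.Agent.H909R2.ADB.LL_le k)
    (fun e he => Pool.Agent.H459R2.ADB2.LL_asymp k e hk he)
    (Pool.Agent.H909R2.ADB.dk_bound k (1 / 4) (by norm_num)) a b ha hb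

theorem SS_pos (k h : ℕ) (hk : 1 ≤ k) (hh : 1 ≤ h) : 0 < SS (k + 1) h :=
  Pool.Agent.H896R2.ADC.SS_pos_of k h hh (Pool.Agent.H909R2.ADB.dk_mul_le k)
    (Pool.Agent.H909R2.ADB.LL_le k)
    (fun e he => Pool.Agent.H459R2.ADB2.LL_asymp k e hk he)
    (Pool.Agent.H909R2.ADB.dk_bound k (1 / 4) (by norm_num))

lemma small1 (k : ℕ) (t : ℝ) (ht : 0 < t) (ht' : t < 1 / 2) : ∃ K : ℝ, 0 ≤ K ∧ ∀ x : ℝ, 1 ≤ x →
    (∑ m ∈ Icc 1 ⌊x ^ (1 / 2 - t)⌋₊, dk k m) ^ 2 ≤ K * x ^ (1 - t) := by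
  obtain ⟨C, hC1, hC⟩ := DBStmt_holds k (t / 2) (by positivity)
  refine ⟨C ^ 2, by positivity, ?_⟩
  intro x hx
  have hx0 : 0 < x := by linarith
  set z := x ^ (1 / 2 - t) with hz
  have hz0 : 0 ≤ z := by positivity
  have hzx : z ≤ x := by
    calc z ≤ x ^ (1 : ℝ) := Real.rpow_le_rpow_of_exponent_le hx (by linarith)
      _ = x := Real.rpow_one x
  have h1 : ∑ m ∈ Icc 1 ⌊z⌋₊, dk k m ≤ z * (C * x ^ (t / 2)) := by
    calc ∑ m ∈ Icc 1 ⌊z⌋₊, dk k m ≤ ∑ m ∈ Icc 1 ⌊z⌋₊, C * x ^ (t / 2) := by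
          apply sum_le_sum
          intro m hm
          rw [mem_Icc] at hm
          refine (hC m hm.1).trans (mul_le_mul_of_nonneg_left ?_ (by linarith))
          apply Real.rpow_le_rpow (Nat.cast_nonneg _) _ (by positivity)
          calc (m : ℝ) ≤ (⌊z⌋₊ : ℝ) := by exact_mod_cast hm.2
            _ ≤ z := Nat.floor_le hz0
            _ ≤ x := hzx
      _ = (⌊z⌋₊ : ℝ) * (C * x ^ (t / 2)) := by
          rw [sum_const, nsmul_eq_mul, Nat.card_Icc, Nat.add_sub_cancel]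
      _ ≤ z * (C * x ^ (t / 2)) := mul_le_mul_of_nonneg_right (Nat.floor_le hz0) (by positivity)
  have h0 : 0 ≤ ∑ m ∈ Icc 1 ⌊z⌋₊, dk k m := sum_nonneg fun m _ => dk_nonneg k m
  calc (∑ m ∈ Icc 1 ⌊z⌋₊, dk k m) ^ 2 ≤ (z * (C * x ^ (t / 2))) ^ 2 := pow_le_pow_left₀ h0 h1 2
    _ = C ^ 2 * ((z * x ^ (t / 2)) ^ 2) := by ring
    _ = C ^ 2 * x ^ (1 - t) := by
        congr 1
        rw [hz, ← Real.rpow_add hx0, ← Real.rpow_natCast, ← Real.rpow_mul hx0.le]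
        congr 1; push_cast; ring

lemma small2 (k h : ℕ) (t : ℝ) (ht : 0 < t) (ht' : t < 1 / 2) : ∃ K : ℝ, 0 ≤ K ∧ ∀ x : ℝ, 1 ≤ x →
    (h : ℝ) ≤ x →
    ∑ n ∈ Icc 1 (⌊x ^ (1 / 2 - t)⌋₊ ^ 2), dk k n * dk k (n + h) ≤ K * x ^ (1 - t) := by
  obtain ⟨C, hC1, hC⟩ := DBStmt_holds k (t / 2) (by positivity)
  refine ⟨C ^ 2 * 2 ^ (t / 2), by positivity, ?_⟩
  intro x hx hhx
  have hx0 : 0 < x := by linarith
  set z := x ^ (1 / 2 - t) with hz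
  have hz0 : 0 ≤ z := by positivity
  have hz2 : z ^ 2 = x ^ (1 - 2 * t) := by
    rw [hz, ← Real.rpow_natCast, ← Real.rpow_mul hx0.le]; congr 1; push_cast; ring
  have hzx : z ^ 2 ≤ x := by
    rw [hz2]
    calc x ^ (1 - 2 * t) ≤ x ^ (1 : ℝ) := Real.rpow_le_rpow_of_exponent_le hx (by linarith)
      _ = x := Real.rpow_one x
  have hfz : ((⌊z⌋₊ ^ 2 : ℕ) : ℝ) ≤ z ^ 2 := by
    push_cast
    exact pow_le_pow_left₀ (Nat.cast_nonneg _) (Nat.floor_le hz0) 2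
  calc ∑ n ∈ Icc 1 (⌊z⌋₊ ^ 2), dk k n * dk k (n + h) ≤
      ∑ n ∈ Icc 1 (⌊z⌋₊ ^ 2), (C * x ^ (t / 2)) * (C * (2 * x) ^ (t / 2)) := by
        apply sum_le_sum
        intro n hn
        rw [mem_Icc] at hn
        have hnx : (n : ℝ) ≤ x := by
          calc (n : ℝ) ≤ ((⌊z⌋₊ ^ 2 : ℕ) : ℝ) := by exact_mod_cast hn.2
            _ ≤ x := hfz.trans hzx
        apply mul_le_mul
        · refine (hC n hn.1).trans (mul_le_mul_of_nonneg_left ?_ (by linarith))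
          exact Real.rpow_le_rpow (Nat.cast_nonneg _) hnx (by positivity)
        · refine (hC (n + h) (by omega)).trans (mul_le_mul_of_nonneg_left ?_ (by linarith))
          apply Real.rpow_le_rpow (Nat.cast_nonneg _) _ (by positivity)
          push_cast; linarith
        · exact dk_nonneg _ _
        · positivity
    _ = ((⌊z⌋₊ ^ 2 : ℕ) : ℝ) * ((C * x ^ (t / 2)) * (C * (2 * x) ^ (t / 2))) := by
        rw [sum_const, nsmul_eq_mul, Nat.card_Icc, Nat.add_sub_cancel]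
    _ ≤ z ^ 2 * ((C * x ^ (t / 2)) * (C * (2 * x) ^ (t / 2))) :=
        mul_le_mul_of_nonneg_right hfz (by positivity)
    _ = C ^ 2 * 2 ^ (t / 2) * (x ^ (1 - 2 * t) * x ^ (t / 2) * x ^ (t / 2)) := by
        rw [hz2, Real.mul_rpow (by norm_num) hx0.le]; ring
    _ = C ^ 2 * 2 ^ (t / 2) * x ^ (1 - t) := by
        congr 1
        rw [← Real.rpow_add hx0, ← Real.rpow_add hx0]
        congr 1; ring

/-- the limit constant for the parameters `ε = δ = η = t` -/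
noncomputable def GG (k : ℕ) (t : ℝ) : ℝ :=
  2 * ((k : ℝ) + 1) / (1 + t) * ((1 / 2 - t) ^ k * (1 - t) ^ k - (1 / 2 - t) ^ k * t ^ k) -
    ((k : ℝ) + 1) ^ 2 * ((1 / 2 - t) ^ k * (1 / 2 - t) ^ k)

lemma GG_exists (k : ℕ) (hk : 1 ≤ k) (c : ℝ) (hc : c < 1 - (1 - ((k : ℝ) + 1) / 2 ^ k) ^ 2) :
    ∃ t : ℝ, 0 < t ∧ t < 1 / 4 ∧ c < GG k t := by
  have h0 : GG k 0 = 1 - (1 - ((k : ℝ) + 1) / 2 ^ k) ^ 2 := by
    unfold GG
    rw [zero_pow (by omega)]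
    simp only [add_zero, sub_zero, mul_zero, div_one, one_pow, mul_one]
    rw [div_pow, one_pow]
    field_simp
    ring
  have hcont : ContinuousAt (GG k) 0 := by
    unfold GG
    have h1 : ContinuousAt (fun t : ℝ => 1 + t) 0 := by fun_prop
    have h2 : (fun t : ℝ => 1 + t) 0 ≠ 0 := by norm_num
    have h3 : ContinuousAt (fun t : ℝ => 2 * ((k : ℝ) + 1) / (1 + t)) 0 :=
      continuousAt_const.div h1 h2
    have h4 : ContinuousAt (fun t : ℝ => ((1 / 2 - t) ^ k * (1 - t) ^ k - (1 / 2 - t) ^ k * t ^ k)) 0 := by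
      fun_prop
    have h5 : ContinuousAt (fun t : ℝ => ((k : ℝ) + 1) ^ 2 * ((1 / 2 - t) ^ k * (1 / 2 - t) ^ k)) 0 := by
      fun_prop
    exact (h3.mul h4).sub h5
  have hlim : ∀ᶠ t in 𝓝 (0 : ℝ), c < GG k t := by
    have := hcont.tendsto
    rw [h0] at this
    exact this.eventually_const_lt hc
  have hlim2 : ∀ᶠ t in 𝓝[>] (0 : ℝ), c < GG k t := hlim.filter_mono nhdsWithin_le_nhds
  have hlim3 : ∀ᶠ t in 𝓝[>] (0 : ℝ), t < 1 / 4 := by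
    have : ∀ᶠ t in 𝓝 (0 : ℝ), t < 1 / 4 := eventually_lt_nhds (by norm_num)
    exact this.filter_mono nhdsWithin_le_nhds
  have hlim4 : ∀ᶠ t in 𝓝[>] (0 : ℝ), 0 < t := eventually_mem_nhdsWithin
  obtain ⟨t, h1, h2, h3⟩ := (hlim2.and (hlim3.and hlim4)).exists
  exact ⟨t, h3, h2, h1⟩

theorem lower (k h : ℕ) (hk : 1 ≤ k) (hh : 1 ≤ h) (c : ℝ) (hc : c < 1 - (1 - ((k : ℝ) + 1) / 2 ^ k) ^ 2) :
    ∀ᶠ X : ℕ in atTop,
      c * (SS (k + 1) h / (k.factorial : ℝ) ^ 2 * X * Real.log X ^ (2 * k)) ≤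
        ∑ n ∈ Icc 1 X, dk (k + 1) n * dk (k + 1) (n + h) := by
  obtain ⟨t, ht0, ht4, hct⟩ := GG_exists k hk c hc
  have hSS := SS_pos k h hk hh
  set r : ℝ := (k : ℝ) + 1 with hr
  have hr0 : 0 < r := by positivity
  have hsp : (h : ℤ) ≠ 0 := by exact_mod_cast (by omega : h ≠ 0)
  have hsn : (-(h : ℤ)) ≠ 0 := neg_ne_zero.mpr hsp
  obtain ⟨θ₁, hθ₁, hT1⟩ := T_lower_of BVStmt_holds DBStmt_holds k (h : ℤ) hsp t t t ht0 ht0 (by linarith) ht0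
  obtain ⟨θ₂, hθ₂, hT2⟩ := T_lower_of BVStmt_holds DBStmt_holds k (-(h : ℤ)) hsn t t t ht0 ht0 (by linarith) ht0
  obtain ⟨K₁, hK₁, hs1⟩ := small1 k t ht0 (by linarith)
  obtain ⟨K₂, hK₂, hs2⟩ := small2 (k + 1) h t ht0 (by linarith)
  rw [Int.natAbs_natCast] at hT1
  rw [Int.natAbs_neg, Int.natAbs_natCast] at hT2
  set F2 : ℝ := (k.factorial : ℝ) ^ 2 with hF2
  have hF20 : 0 < F2 := by positivity
  -- the main function
  set P1 : ℝ → ℝ := fun x => BB k h (x ^ (1 / 2 - t)) (x ^ (1 - t)) / Real.log x ^ (2 * k) with hP1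
  set P2 : ℝ → ℝ := fun x => BB k h (x ^ (1 / 2 - t)) (x ^ t) / Real.log x ^ (2 * k) with hP2
  set P3 : ℝ → ℝ := fun x => BB k h (x ^ (1 / 2 - t)) (x ^ (1 / 2 - t)) / Real.log x ^ (2 * k) with hP3
  have l1 : Tendsto P1 atTop (𝓝 ((1 / 2 - t) ^ k * (1 - t) ^ k / F2 * SS (k + 1) h)) :=
    BB_asymp k h hk hh _ _ (by linarith) (by linarith)
  have l2 : Tendsto P2 atTop (𝓝 ((1 / 2 - t) ^ k * t ^ k / F2 * SS (k + 1) h)) :=
    BB_asymp k h hk hh _ _ (by linarith) (by linarith)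
  have l3 : Tendsto P3 atTop (𝓝 ((1 / 2 - t) ^ k * (1 / 2 - t) ^ k / F2 * SS (k + 1) h)) :=
    BB_asymp k h hk hh _ _ (by linarith) (by linarith)
  set K₃ : ℝ := r ^ 2 * K₁ + 2 * r * K₂ with hK₃
  have e1 : Tendsto (fun x : ℝ => r * x ^ (-θ₁) + r * x ^ (-θ₂) + K₃ * x ^ (-t)) atTop (𝓝 0) := by
    have h1 := (tendsto_rpow_neg_atTop hθ₁).const_mul r
    have h2 := (tendsto_rpow_neg_atTop hθ₂).const_mul r
    have h3 := (tendsto_rpow_neg_atTop ht0).const_mul K₃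
    simpa using (h1.add h2).add h3
  have lim : Tendsto (fun x : ℝ => 2 * r / (1 + t) * (P1 x - P2 x) - r ^ 2 * P3 x -
      (r * x ^ (-θ₁) + r * x ^ (-θ₂) + K₃ * x ^ (-t))) atTop
      (𝓝 (2 * r / (1 + t) * ((1 / 2 - t) ^ k * (1 - t) ^ k / F2 * SS (k + 1) h -
        (1 / 2 - t) ^ k * t ^ k / F2 * SS (k + 1) h) -
        r ^ 2 * ((1 / 2 - t) ^ k * (1 / 2 - t) ^ k / F2 * SS (k + 1) h) - 0)) :=
    (((l1.sub l2).const_mul _).sub (l3.const_mul _)).sub e1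
  have hval : 2 * r / (1 + t) * ((1 / 2 - t) ^ k * (1 - t) ^ k / F2 * SS (k + 1) h -
        (1 / 2 - t) ^ k * t ^ k / F2 * SS (k + 1) h) -
        r ^ 2 * ((1 / 2 - t) ^ k * (1 / 2 - t) ^ k / F2 * SS (k + 1) h) - 0 =
      GG k t * (SS (k + 1) h / F2) := by
    unfold GG
    rw [← hr]
    ring
  rw [hval] at lim
  have hlt : c * (SS (k + 1) h / F2) < GG k t * (SS (k + 1) h / F2) :=
    mul_lt_mul_of_pos_right hct (by positivity)
  have hev := lim.eventually_const_lt hlt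
  have hev_log : ∀ᶠ x : ℝ in atTop, 1 ≤ Real.log x := Real.tendsto_log_atTop.eventually_ge_atTop 1
  have hev_h : ∀ᶠ x : ℝ in atTop, (h : ℝ) ≤ x := eventually_ge_atTop _
  have hev_1 : ∀ᶠ x : ℝ in atTop, (1 : ℝ) ≤ x := eventually_ge_atTop _
  have hall := (hT1.and (hT2.and (hev.and (hev_log.and (hev_h.and hev_1)))))
  have hnat := tendsto_natCast_atTop_atTop (R := ℝ) |>.eventually hall
  filter_upwards [hnat] with X hX
  obtain ⟨hX1, hX2, hX3, hX4, hX5, hX6⟩ := hX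
  set x : ℝ := (X : ℝ) with hx
  have hx0 : 0 < x := by linarith
  rw [Nat.floor_natCast] at hX1 hX2
  set y := ⌊x ^ (1 / 2 - t)⌋₊ with hy
  have hfix := fixed k y h X hh
  rw [← hr] at hfix
  have hAA := Pool.Agent.H909R2.ADF.AA_upper k h X y hh
  have hAA' : ∑ n ∈ Icc 1 X, aa k y n * aa k y (n + h) ≤
      x * BB k h (x ^ (1 / 2 - t)) (x ^ (1 / 2 - t)) + K₁ * x ^ (1 - t) := by
    have hBBy : BB k h (y : ℝ) (y : ℝ) = BB k h (x ^ (1 / 2 - t)) (x ^ (1 / 2 - t)) := by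
      unfold BB
      rw [Nat.floor_natCast]
    rw [hBBy] at hAA
    have := hs1 x hX6
    unfold aa
    linarith
  have hS2 := hs2 x hX6 hX5
  set L := Real.log x ^ (2 * k) with hL
  have hL1 : 1 ≤ L := one_le_pow₀ hX4
  have hL0 : 0 < L := by linarith
  -- lower bound
  have hD : r * (x / (1 + t) * (BB k h (x ^ (1 / 2 - t)) (x ^ (1 - t)) -
        BB k h (x ^ (1 / 2 - t)) (x ^ t)) - x ^ (1 - θ₁)) +
      r * (x / (1 + t) * (BB k h (x ^ (1 / 2 - t)) (x ^ (1 - t)) -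
        BB k h (x ^ (1 / 2 - t)) (x ^ t)) - x ^ (1 - θ₂)) -
      r ^ 2 * (x * BB k h (x ^ (1 / 2 - t)) (x ^ (1 / 2 - t)) + K₁ * x ^ (1 - t)) -
      2 * r * (K₂ * x ^ (1 - t)) ≤ ∑ n ∈ Icc 1 X, dk (k + 1) n * dk (k + 1) (n + h) := by
    refine le_trans ?_ hfix
    have g1 := mul_le_mul_of_nonneg_left hX1 hr0.le
    have g2 := mul_le_mul_of_nonneg_left hX2 hr0.le
    have g3 := mul_le_mul_of_nonneg_left hAA' (by positivity : 0 ≤ r ^ 2)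
    have g4 := mul_le_mul_of_nonneg_left hS2 (by positivity : 0 ≤ 2 * r)
    linarith
  refine le_trans ?_ hD
  have hB1 : BB k h (x ^ (1 / 2 - t)) (x ^ (1 - t)) = P1 x * L :=
    (div_mul_cancel₀ _ hL0.ne').symm
  have hB2 : BB k h (x ^ (1 / 2 - t)) (x ^ t) = P2 x * L :=
    (div_mul_cancel₀ _ hL0.ne').symm
  have hB3 : BB k h (x ^ (1 / 2 - t)) (x ^ (1 / 2 - t)) = P3 x * L :=
    (div_mul_cancel₀ _ hL0.ne').symm
  have hx1 : x ^ (1 - θ₁) = x * x ^ (-θ₁) := by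
    rw [sub_eq_add_neg, Real.rpow_add hx0, Real.rpow_one]
  have hx2 : x ^ (1 - θ₂) = x * x ^ (-θ₂) := by
    rw [sub_eq_add_neg, Real.rpow_add hx0, Real.rpow_one]
  have hx3 : x ^ (1 - t) = x * x ^ (-t) := by
    rw [sub_eq_add_neg, Real.rpow_add hx0, Real.rpow_one]
  rw [hB1, hB2, hB3, hx1, hx2, hx3]
  clear hB1 hB2 hB3 hx1 hx2 hx3 hD hfix hAA hAA' hS2 hX1 hX2 hnat hall hev lim hval hlt e1 l1 l2 l3 hT1 hT2
    hs1 hs2
  clear_value P1 P2 P3 y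
  set E := r * x ^ (-θ₁) + r * x ^ (-θ₂) + K₃ * x ^ (-t) with hE
  have hE0 : 0 ≤ E := by positivity
  have hkey : c * (SS (k + 1) h / F2) * (x * L) ≤
      (2 * r / (1 + t) * (P1 x - P2 x) - r ^ 2 * P3 x - E) * (x * L) :=
    mul_le_mul_of_nonneg_right hX3.le (by positivity)
  have hEL : x * E ≤ E * (x * L) := by nlinarith [mul_nonneg hx0.le hE0]
  calc c * (SS (k + 1) h / F2 * x * L) = c * (SS (k + 1) h / F2) * (x * L) := by ring
    _ ≤ (2 * r / (1 + t) * (P1 x - P2 x) - r ^ 2 * P3 x - E) * (x * L) := hkey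
    _ = (2 * r / (1 + t) * (P1 x - P2 x) - r ^ 2 * P3 x) * (x * L) - E * (x * L) := by ring
    _ ≤ (2 * r / (1 + t) * (P1 x - P2 x) - r ^ 2 * P3 x) * (x * L) - x * E := by linarith
    _ = _ := by
        rw [hE, hK₃]
        ring

/-- G: the theorem -/
theorem main (r h : ℕ) (hr : 3 ≤ r) (hh : 1 ≤ h) : 0 < SS r h ∧
    ∀ c : ℝ, c < 1 - (1 - r / 2 ^ (r - 1)) ^ 2 → ∀ᶠ x : ℕ in atTop,
      c * (SS r h / ((r - 1).factorial : ℝ) ^ 2 * x * Real.log x ^ (2 * (r - 1))) ≤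
        ∑ n ∈ Icc 1 x, dk r n * dk r (n + h) := by
  obtain ⟨k, rfl⟩ : ∃ k, r = k + 1 := ⟨r - 1, by omega⟩
  have hk : 1 ≤ k := by omega
  refine ⟨SS_pos k h hk hh, ?_⟩
  intro c hc
  rw [Nat.add_sub_cancel] at hc ⊢
  exact lower k h hk hh c (by push_cast at hc; exact hc)

end Pool.Agent.H329R2.AD
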