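import Mathlib
import Pool.Agent.H329R2.AD.Defs

/-! STUBS (statements only, with sorry; never import this in a hand-in). -/

set_option autoImplicit false

open Finset Filter Topology Pool.Agent.H329R2.AD

namespace Pool.Agent.H329R2.AD.BP

/-- A (pointwise minorant) -/
theorem ptw (k n y : ℕ) (hn : y ^ 2 < n) :
    ((k : ℝ) + 1) * ∑ m ∈ n.divisors.filter (fun m => m ≤ y), dk k m ≤ dk (k + 1) n := sorry

/-- B1 -/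
theorem dk_mul_le (k a b : ℕ) : dk k (a * b) ≤ dk k a * dk k b := sorry

/-- B2 -/
theorem LL_le (k e : ℕ) (he : 1 ≤ e) (y : ℝ) (hy : 1 ≤ y) :
    LL k y e ≤ dk k e / e * (1 + Real.log y) ^ k := sorry

/-- B3 -/
theorem LL_asymp (k e : ℕ) (hk : 1 ≤ k) (he : 1 ≤ e) :
    Tendsto (fun y : ℝ => LL k y e / Real.log y ^ k) atTop (𝓝 (Pr k e / k.factorial)) := sorry

/-- B4 divisor bound -/
theorem dk_bound (k : ℕ) (ε : ℝ) (hε : 0 < ε) :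
    ∃ C : ℝ, 1 ≤ C ∧ ∀ n : ℕ, 1 ≤ n → dk k n ≤ C * (n : ℝ) ^ ε := sorry

/-- C1 -/
theorem ram_sum (g h : ℕ) (hg : 1 ≤ g) :
    ∑ e ∈ g.divisors, ram e h = if g ∣ h then (g : ℝ) else 0 := sorry

/-- C2 -/
theorem BB_asymp (k h : ℕ) (hk : 1 ≤ k) (hh : 1 ≤ h) (a b : ℝ) (ha : 0 < a) (hb : 0 < b) :
    Tendsto (fun x : ℝ => BB k h (x ^ a) (x ^ b) / Real.log x ^ (2 * k)) atTop
      (𝓝 (a ^ k * b ^ k / (k.factorial : ℝ) ^ 2 * SS (k + 1) h)) := sorry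

/-- C3 -/
theorem SS_pos (k h : ℕ) (hk : 1 ≤ k) (hh : 1 ≤ h) : 0 < SS (k + 1) h := sorry

/-- D (Bombieri-Vinogradov type) -/
theorem bv (ε δ : ℝ) (hε : 0 < ε) (hδ : 0 < δ) : ∃ θ C : ℝ, 0 < θ ∧ ∀ x : ℝ, 1 ≤ x →
    ∀ (U Y : ℕ) (α : ℕ → ℝ) (a : ℕ → ℕ), (U : ℝ) ≤ x ^ (1 - δ) → (Y : ℝ) ≤ x ^ (1 - δ) →
      (U : ℝ) * Y ≤ x → (∀ n, |α n| ≤ 1) →
      ∑ m ∈ (Icc 1 ⌊x ^ (1 / 2 - ε)⌋₊).filter (fun m => (a m).Coprime m),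
        |∑ M ∈ Icc 1 U, α M * ((((Icc 1 Y).filter (fun c => M * c ≡ a m [MOD m])).card : ℝ) -
          if M.Coprime m then (Y : ℝ) / m else 0)| ≤ C * x ^ (1 - θ) := sorry

/-- E (lower bound for the mixed sums, residue `s` of either sign) -/
theorem T_lower (k : ℕ) (s : ℤ) (hs : s ≠ 0) (ε δ η : ℝ) (hε : 0 < ε) (hε' : ε < 1 / 2) (hδ : 0 < δ)
    (hδ' : δ < 1 / 2) (hη : 0 < η) : ∃ θ : ℝ, 0 < θ ∧ ∀ᶠ x : ℝ in atTop,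
    x / (1 + η) * (BB k s.natAbs (x ^ (1 / 2 - ε)) (x ^ (1 - δ)) -
        BB k s.natAbs (x ^ (1 / 2 - ε)) (x ^ δ)) - x ^ (1 - θ) ≤
      ∑ N ∈ Ioc s.natAbs ⌊x⌋₊, dk (k + 1) N *
        ∑ m ∈ (Icc 1 ⌊x ^ (1 / 2 - ε)⌋₊).filter (fun m : ℕ => (m : ℤ) ∣ (N : ℤ) - s), dk k m := sorry

/-- F (upper bound for the correlation of the truncated sums) -/
theorem AA_upper (k h x y : ℕ) (hh : 1 ≤ h) :
    ∑ n ∈ Icc 1 x, (∑ m ∈ n.divisors.filter (fun m => m ≤ y), dk k m) *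
      (∑ m ∈ (n + h).divisors.filter (fun m => m ≤ y), dk k m) ≤
      x * BB k h y y + (∑ m ∈ Icc 1 y, dk k m) ^ 2 := sorry

/-- G: the theorem -/
theorem main (r h : ℕ) (hr : 3 ≤ r) (hh : 1 ≤ h) : 0 < SS r h ∧
    ∀ c : ℝ, c < 1 - (1 - r / 2 ^ (r - 1)) ^ 2 → ∀ᶠ x : ℕ in atTop,
      c * (SS r h / ((r - 1).factorial : ℝ) ^ 2 * x * Real.log x ^ (2 * (r - 1))) ≤
        ∑ n ∈ Icc 1 x, dk r n * dk r (n + h) := sorry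

end Pool.Agent.H329R2.AD.BP
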